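import Mathlib

/-! Deterministic lemmas on primes near `y`: if a large gap follows closely, the points of a whole
interval near `y` are far from all primes. -/

set_option autoImplicit false

namespace Pool.Agent.H749R6.MG

open Filter Topology

/-- the `k`-th prime as a real number -/
noncomputable abbrev P (k : ℕ) : ℝ := (Nat.nth Nat.Prime k : ℝ)

/-- all primes have distance greater than `r` from `y` -/
def Far (r y : ℝ) : Prop := ∀ p : ℕ, p.Prime → r < |y - p|

theorem prime_nth (k : ℕ) : (Nat.nth Nat.Prime k).Prime :=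
  Nat.prime_nth_prime k

theorem nth_mono {i j : ℕ} (h : i ≤ j) : Nat.nth Nat.Prime i ≤ Nat.nth Nat.Prime j :=
  (Nat.nth_monotone Nat.infinite_setOfPred_prime) h

theorem P_mono {i j : ℕ} (h : i ≤ j) : P i ≤ P j := by
  exact_mod_cast nth_mono h

theorem P_two (k : ℕ) : (2 : ℝ) ≤ P k := by
  exact_mod_cast (prime_nth k).two_le

/-- a prime is at most the `m`-th one or at least the next one -/
theorem split (m p : ℕ) (hp : p.Prime) : (p : ℝ) ≤ P m ∨ P (m + 1) ≤ p := by
  rcases Nat.lt_or_ge (Nat.nth Nat.Prime m) p with h | h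
  · right
    have h1 : p = Nat.nth Nat.Prime (Nat.count Nat.Prime p) := (Nat.nth_count hp).symm
    have h2 : m < Nat.count Nat.Prime p := by
      rw [h1] at h
      exact (Nat.nth_lt_nth Nat.infinite_setOfPred_prime).1 h
    have h3 := nth_mono (Nat.succ_le_of_lt h2)
    rw [← h1] at h3
    exact_mod_cast h3
  · left
    exact_mod_cast h

/-- every `y ≥ 2` lies between two consecutive primes -/
theorem exists_idx (y : ℝ) (hy : 2 ≤ y) : ∃ k, P k ≤ y ∧ y < P (k + 1) := by
  have h0 : ∃ k, y < P k := by
    obtain ⟨n, hn⟩ := exists_nat_gt y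
    refine ⟨n, hn.trans_le ?_⟩
    have : n ≤ Nat.nth Nat.Prime n := (Nat.nth_strictMono Nat.infinite_setOfPred_prime).le_apply
    exact_mod_cast this
  classical
  have h1 := Nat.find_spec h0
  have h2 : Nat.find h0 ≠ 0 := by
    intro h
    rw [h] at h1
    have : (Nat.nth Nat.Prime 0) = 2 := Nat.nth_prime_zero_eq_two
    rw [P, this] at h1
    push_cast at h1
    linarith
  obtain ⟨k, hk⟩ := Nat.exists_eq_succ_of_ne_zero h2
  refine ⟨k, ?_, ?_⟩
  · have := Nat.find_min h0 (m := k) (by rw [hk]; exact Nat.lt_succ_self k)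
    exact not_lt.1 this
  · rw [hk] at h1
    exact h1

/-- Bertrand -/
theorem bertrand (k : ℕ) : P (k + 1) ≤ 2 * P k := by
  obtain ⟨p, hp, h1, h2⟩ := Nat.exists_prime_lt_and_le_two_mul (Nat.nth Nat.Prime k)
    (prime_nth k).ne_zero
  rcases split k p hp with h | h
  · exfalso
    have : p ≤ Nat.nth Nat.Prime k := by exact_mod_cast h
    omega
  · refine h.trans ?_
    exact_mod_cast h2

/-- a point of a gap at distance `> r` from both ends is far from all primes -/
theorem far_of_gap (m : ℕ) (r w : ℝ) (h1 : P m + r < w) (h2 : w < P (m + 1) - r) : Far r w := by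
  intro p hp
  rcases split m p hp with h | h
  · rw [lt_abs]
    left
    linarith
  · rw [lt_abs]
    right
    linarith

/-- a point `y` of the gap `k` which is not far from the primes is close to one of the ends -/
theorem near_end (k : ℕ) (r y : ℝ) (h1 : P k ≤ y) (h2 : y < P (k + 1)) (h : ¬ Far r y) :
    y - P k ≤ r ∨ P (k + 1) - y ≤ r := by
  unfold Far at h
  push Not at h
  obtain ⟨p, hp, hpr⟩ := h
  rw [abs_le] at hpr
  rcases split k p hp with h | h
  · left
    linarith [hpr.2]
  · right
    linarith [hpr.1]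

/-- sum of the gaps before the first large one -/
theorem walk (v T C : ℝ) (K : ℕ) (hC : 0 < C) (hT : 1 ≤ 2 * (v * T))
    (hK : K * (8 * C * Real.log (2 * (v * T))) ≤ v * T) (k : ℕ) (hk : P k ≤ v * T) :
    ∀ j : ℕ, j ≤ K → (∀ i < j, P (k + i + 1) - P (k + i) ≤ 8 * C * Real.log (P (k + i))) →
      P (k + j) ≤ P k + j * (8 * C * Real.log (2 * (v * T))) := by
  intro j
  induction j with
  | zero => intro _ _; simp
  | succ j ih =>
    intro hj h
    have h1 := ih (by omega) (fun i hi => h i (by omega))
    have hlog : 0 ≤ Real.log (2 * (v * T)) := Real.log_nonneg hT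
    have h2 : P (k + j) ≤ 2 * (v * T) := by
      have h3 : (j : ℝ) * (8 * C * Real.log (2 * (v * T))) ≤
          K * (8 * C * Real.log (2 * (v * T))) := by
        apply mul_le_mul_of_nonneg_right
        · exact_mod_cast (by omega : j ≤ K)
        · positivity
      linarith
    have h4 := h j (by omega)
    have h5 : Real.log (P (k + j)) ≤ Real.log (2 * (v * T)) :=
      Real.log_le_log (by linarith [P_two (k + j)]) h2
    have h6 : 8 * C * Real.log (P (k + j)) ≤ 8 * C * Real.log (2 * (v * T)) :=
      mul_le_mul_of_nonneg_left h5 (by positivity)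
    have h7 : P (k + (j + 1)) = P (k + j + 1) := rfl
    rw [h7]
    push_cast
    linarith

theorem geomT (u v C T L : ℝ) (K : ℕ) (hC : 0 < C) (huT : 4 ≤ u * T)
    (hT1 : 1 ≤ T) (huv : u ≤ v)
    (hlog1 : 3 / 4 * Real.log T ≤ Real.log (u * T / 2))
    (hlog2 : Real.log (2 * (v * T)) ≤ 2 * Real.log T)
    (hK : K * (8 * C * Real.log (2 * (v * T))) ≤ v * T)
    (hL : L = 16 * C * K + 3 * C) (hlogT : 0 < Real.log T) :
    ∀ y : ℝ, u * T ≤ y → y ≤ v * T → ∀ k : ℕ, P k ≤ y → y < P (k + 1) →
      ¬ Far (C * Real.log T) y →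
      (∃ i < K, 8 * C * Real.log (P (k + i)) < P (k + i + 1) - P (k + i)) →
      ∃ z, |z - y| ≤ L * Real.log T ∧
        ∀ w, |w - z| < 2 * C * Real.log T → Far (C * Real.log T) w := by
  intro y hy1 hy2 k hk1 hk2 hnf hex
  classical
  have hCl : 0 < C * Real.log T := mul_pos hC hlogT
  -- the gap is at least `6 C log T`
  have hgap : ∀ m : ℕ, u * T / 2 ≤ P m → 8 * C * Real.log (P m) < P (m + 1) - P m →
      6 * (C * Real.log T) < P (m + 1) - P m := by
    intro m hm hg
    have h1 : Real.log (u * T / 2) ≤ Real.log (P m) := Real.log_le_log (by linarith) hm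
    have h2 : 3 / 4 * Real.log T ≤ Real.log (P m) := hlog1.trans h1
    have h3 : 8 * C * (3 / 4 * Real.log T) ≤ 8 * C * Real.log (P m) :=
      mul_le_mul_of_nonneg_left h2 (by positivity)
    linarith
  have hi := Nat.find_spec hex
  set i := Nat.find hex with hidef
  obtain ⟨hiK, hig⟩ := hi
  have hmin : ∀ j < i, P (k + j + 1) - P (k + j) ≤ 8 * C * Real.log (P (k + j)) := by
    intro j hj
    have := Nat.find_min hex hj
    push Not at this
    exact this (by omega)
  have hL0 : 3 * (C * Real.log T) ≤ L * Real.log T := by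
    rw [hL]
    have : (0 : ℝ) ≤ 16 * C * K * Real.log T := by positivity
    linarith
  have hPk : u * T / 2 ≤ P k := by
    have := bertrand k
    linarith
  rcases Nat.eq_zero_or_pos i with h0 | h0
  · -- the gap containing y is large
    rw [h0] at hig
    simp only [add_zero] at hig
    have hg := hgap k hPk hig
    rcases near_end k _ y hk1 hk2 hnf with hn | hn
    · refine ⟨P k + 3 * (C * Real.log T), ?_, ?_⟩
      · rw [abs_le]
        constructor <;> linarith
      · intro w hw
        rw [abs_lt] at hw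
        apply far_of_gap k <;> linarith [hw.1, hw.2]
    · refine ⟨P (k + 1) - 3 * (C * Real.log T), ?_, ?_⟩
      · rw [abs_le]
        constructor <;> linarith
      · intro w hw
        rw [abs_lt] at hw
        apply far_of_gap k <;> linarith [hw.1, hw.2]
  · -- a later gap is large
    have hPi : y < P (k + i) := hk2.trans_le (P_mono (by omega))
    have hg := hgap (k + i) (by linarith) hig
    have hvT : 1 ≤ 2 * (v * T) := by
      have : u * T ≤ v * T := mul_le_mul_of_nonneg_right huv (by linarith)
      linarith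
    have hw := walk v T C K hC hvT hK k (hk1.trans hy2) i hiK.le hmin
    have h1 : (i : ℝ) * (8 * C * Real.log (2 * (v * T))) ≤ 16 * C * K * Real.log T := by
      have h2 : 8 * C * Real.log (2 * (v * T)) ≤ 16 * C * Real.log T := by
        have := mul_le_mul_of_nonneg_left hlog2 (by positivity : (0 : ℝ) ≤ 8 * C)
        linarith
      have h3 : (i : ℝ) * (8 * C * Real.log (2 * (v * T))) ≤ i * (16 * C * Real.log T) :=
        mul_le_mul_of_nonneg_left h2 (by positivity)
      have h4 : (i : ℝ) * (16 * C * Real.log T) ≤ K * (16 * C * Real.log T) := by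
        apply mul_le_mul_of_nonneg_right
        · exact_mod_cast hiK.le
        · positivity
      linarith
    refine ⟨P (k + i) + 3 * (C * Real.log T), ?_, ?_⟩
    · rw [abs_le]
      constructor
      · have : 0 ≤ L * Real.log T := by linarith
        linarith
      · rw [hL]
        nlinarith
    · intro w hw
      rw [abs_lt] at hw
      apply far_of_gap (k + i) <;> linarith [hw.1, hw.2]

theorem geom (u v C : ℝ) (hu : 0 < u) (huv : u ≤ v) (hC : 0 < C) (K : ℕ) :
    ∃ L : ℝ, 0 < L ∧ ∀ᶠ T : ℝ in atTop, ∀ y : ℝ, u * T ≤ y → y ≤ v * T →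
      ∀ k : ℕ, P k ≤ y → y < P (k + 1) → ¬ Far (C * Real.log T) y →
      (∃ i < K, 8 * C * Real.log (P (k + i)) < P (k + i + 1) - P (k + i)) →
      ∃ z, |z - y| ≤ L * Real.log T ∧
        ∀ w, |w - z| < 2 * C * Real.log T → Far (C * Real.log T) w := by
  have hv : 0 < v := hu.trans_le huv
  refine ⟨16 * C * K + 3 * C, by positivity, ?_⟩
  have e1 : ∀ᶠ T : ℝ in atTop, 4 ≤ u * T :=
    (tendsto_id.const_mul_atTop hu).eventually_ge_atTop 4
  have e2 : ∀ᶠ T : ℝ in atTop, -Real.log (u / 2) ≤ 1 / 4 * Real.log T :=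
    (Real.tendsto_log_atTop.const_mul_atTop (by norm_num)).eventually_ge_atTop _
  have e3 : ∀ᶠ T : ℝ in atTop, Real.log (2 * v) ≤ Real.log T :=
    Real.tendsto_log_atTop.eventually_ge_atTop _
  have e4 : ∀ᶠ T : ℝ in atTop, ‖Real.log T‖ ≤ (v / (K * (8 * C * 2) + 1)) * ‖T‖ := by
    have := Real.isLittleO_log_id_atTop
    exact this.def (by positivity)
  filter_upwards [e1, e2, e3, e4, eventually_gt_atTop (1 : ℝ)] with T h1 h2 h3 h4 h5
  have hT0 : (0 : ℝ) < T := by linarith
  have hlogT : 0 < Real.log T := Real.log_pos h5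
  have hl2 : Real.log (2 * (v * T)) ≤ 2 * Real.log T := by
    have : 2 * (v * T) = (2 * v) * T := by ring
    rw [this, Real.log_mul (by positivity) (by positivity)]
    linarith
  refine geomT u v C T _ K hC h1 h5.le huv ?_ hl2 ?_ rfl hlogT
  · have : u * T / 2 = (u / 2) * T := by ring
    rw [this, Real.log_mul (by positivity) (by positivity)]
    linarith
  · rw [Real.norm_eq_abs, Real.norm_eq_abs, abs_of_pos hlogT, abs_of_pos hT0] at h4
    have h6 : (K : ℝ) * (8 * C * Real.log (2 * (v * T))) ≤ K * (8 * C * (2 * Real.log T)) := by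
      apply mul_le_mul_of_nonneg_left _ (by positivity)
      exact mul_le_mul_of_nonneg_left hl2 (by positivity)
    have h7 : (K : ℝ) * (8 * C * (2 * Real.log T)) = (K * (8 * C * 2)) * Real.log T := by ring
    rw [h7] at h6
    refine h6.trans ?_
    have hA : (0 : ℝ) ≤ K * (8 * C * 2) := by positivity
    have h8 : (K * (8 * C * 2) : ℝ) * Real.log T ≤
        (K * (8 * C * 2)) * ((v / (K * (8 * C * 2) + 1)) * T) :=
      mul_le_mul_of_nonneg_left h4 hA
    refine h8.trans ?_
    have h9 : (K * (8 * C * 2) : ℝ) * ((v / (K * (8 * C * 2) + 1)) * T) =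
        ((K * (8 * C * 2)) / (K * (8 * C * 2) + 1)) * (v * T) := by
      field_simp
    rw [h9]
    have h10 : (K * (8 * C * 2) : ℝ) / (K * (8 * C * 2) + 1) ≤ 1 := by
      rw [div_le_one (by positivity)]
      linarith
    have h11 : 0 ≤ v * T := by positivity
    nlinarith

end Pool.Agent.H749R6.MG
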