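import Mathlib
import Pool.Agent.H749R6.MG.Arith

/-! Measure lemmas: Lebesgue density at a microscopic scale. -/

set_option autoImplicit false

namespace Pool.Agent.H749R6.MG

open MeasureTheory Filter Topology Metric Set

theorem slab_meas (A : Set ℝ) (hA : MeasurableSet A) (ρ : ℝ) :
    MeasurableSet {q : ℝ × ℝ | q.2 ∈ A ∧ |q.2 - q.1| ≤ ρ} := by
  apply MeasurableSet.inter
  · exact measurable_snd hA
  · exact measurableSet_le (f := fun q : ℝ × ℝ => |q.2 - q.1|) (by fun_prop) measurable_const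

theorem phi_eq (A : Set ℝ) (ρ x : ℝ) :
    A ∩ closedBall x ρ = Prod.mk x ⁻¹' {q : ℝ × ℝ | q.2 ∈ A ∧ |q.2 - q.1| ≤ ρ} := by
  ext y
  rw [mem_inter_iff, mem_closedBall, Real.dist_eq]
  rfl

theorem phi_meas (A : Set ℝ) (hA : MeasurableSet A) (ρ : ℝ) :
    Measurable fun x : ℝ => volume (A ∩ closedBall x ρ) := by
  simp_rw [phi_eq]
  exact measurable_measure_prodMk_left (slab_meas A hA ρ)

theorem fubini_ball (A : Set ℝ) (hA : MeasurableSet A) (ρ : ℝ) :
    ∫⁻ x : ℝ, volume (A ∩ closedBall x ρ) = ENNReal.ofReal (2 * ρ) * volume A := by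
  simp_rw [phi_eq]
  rw [← Measure.prod_apply (slab_meas A hA ρ), Measure.prod_apply_symm (slab_meas A hA ρ)]
  have h : ∀ y : ℝ, volume ((fun x : ℝ => (x, y)) ⁻¹' {q : ℝ × ℝ | q.2 ∈ A ∧ |q.2 - q.1| ≤ ρ}) =
      A.indicator (fun _ => ENNReal.ofReal (2 * ρ)) y := by
    intro y
    by_cases hy : y ∈ A
    · rw [indicator_of_mem hy]
      have : ((fun x : ℝ => (x, y)) ⁻¹' {q : ℝ × ℝ | q.2 ∈ A ∧ |q.2 - q.1| ≤ ρ}) =
          closedBall y ρ := by
        ext x
        rw [mem_closedBall, dist_comm, Real.dist_eq]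
        exact ⟨fun h => h.2, fun h => ⟨hy, h⟩⟩
      rw [this, Real.volume_closedBall]
    · rw [indicator_of_notMem hy]
      have : ((fun x : ℝ => (x, y)) ⁻¹' {q : ℝ × ℝ | q.2 ∈ A ∧ |q.2 - q.1| ≤ ρ}) = ∅ := by
        ext x
        exact ⟨fun h => hy h.1, fun h => h.elim⟩
      rw [this, measure_empty]
  simp_rw [h]
  rw [lintegral_indicator hA, lintegral_const, Measure.restrict_apply_univ]

/-- Markov -/
theorem markov_ball (A : Set ℝ) (hA : MeasurableSet A) (ρ s : ℝ) :
    ENNReal.ofReal s * volume {x : ℝ | ENNReal.ofReal s ≤ volume (A ∩ closedBall x ρ)} ≤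
      ENNReal.ofReal (2 * ρ) * volume A := by
  rw [← fubini_ball A hA ρ]
  exact mul_meas_ge_le_lintegral (phi_meas A hA ρ) _

/-- if `F` fills most of a ball then it meets a subinterval in a set of positive measure -/
theorem local_meas (F : Set ℝ) (x ρ z s : ℝ) (hs : 0 ≤ s) (hsub : Ioo (z - s) (z + s) ⊆ closedBall x ρ)
    (hsρ : s ≤ ρ) (hF : ENNReal.ofReal (2 * ρ - s) ≤ volume (F ∩ closedBall x ρ)) :
    ENNReal.ofReal s ≤ volume (F ∩ Ioo (z - s) (z + s)) := by
  have h1 : F ∩ closedBall x ρ ⊆ (F ∩ Ioo (z - s) (z + s)) ∪ (closedBall x ρ \ Ioo (z - s) (z + s)) := by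
    intro y hy
    by_cases h : y ∈ Ioo (z - s) (z + s)
    · exact Or.inl ⟨hy.1, h⟩
    · exact Or.inr ⟨hy.2, h⟩
  have h2 : volume (closedBall x ρ \ Ioo (z - s) (z + s)) = ENNReal.ofReal (2 * ρ - 2 * s) := by
    rw [measure_sdiff hsub measurableSet_Ioo.nullMeasurableSet (by simp), Real.volume_closedBall,
      Real.volume_Ioo, ← ENNReal.ofReal_sub _ (by linarith)]
    congr 1
    ring
  have h3 := (hF.trans (measure_mono h1)).trans (measure_union_le _ _)
  rw [h2] at h3
  have h4 : ENNReal.ofReal (2 * ρ - s) = ENNReal.ofReal s + ENNReal.ofReal (2 * ρ - 2 * s) := by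
    rw [← ENNReal.ofReal_add hs (by linarith)]
    congr 1
    ring
  rw [h4] at h3
  exact (ENNReal.add_le_add_iff_right ENNReal.ofReal_ne_top).1 h3

/-- the points which are close to an end of a bad gap -/
theorem bad_meas (T r : ℝ) (hT : 0 < T) (B : Finset ℕ) :
    volume {x : ℝ | ¬ Far r (T * x) ∧ ∃ k ∈ B, P k ≤ T * x ∧ T * x < P (k + 1)} ≤
      ENNReal.ofReal (B.card * (2 * (r / T))) := by
  rcases lt_or_ge r 0 with hr | hr
  · have : {x : ℝ | ¬ Far r (T * x) ∧ ∃ k ∈ B, P k ≤ T * x ∧ T * x < P (k + 1)} = ∅ := by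
      ext x
      refine ⟨fun h => ?_, fun h => h.elim⟩
      exact h.1 (fun p _ => hr.trans_le (abs_nonneg _))
    rw [this, measure_empty]
    exact bot_le
  have hsub : {x : ℝ | ¬ Far r (T * x) ∧ ∃ k ∈ B, P k ≤ T * x ∧ T * x < P (k + 1)} ⊆
      ⋃ k ∈ B, (Icc (P k / T) (P k / T + r / T) ∪ Icc (P (k + 1) / T - r / T) (P (k + 1) / T)) := by
    rintro x ⟨h1, k, hk, h2, h3⟩
    rw [mem_iUnion₂]
    refine ⟨k, hk, ?_⟩
    rcases near_end k r (T * x) h2 h3 h1 with h | h
    · left
      constructor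
      · rw [div_le_iff₀ hT]
        linarith
      · rw [← add_div, le_div_iff₀ hT]
        linarith
    · right
      constructor
      · rw [← sub_div, div_le_iff₀ hT]
        linarith
      · rw [le_div_iff₀ hT]
        linarith
  refine (measure_mono hsub).trans ((measure_biUnion_finset_le _ _).trans ?_)
  have hk : ∀ k ∈ B, volume (Icc (P k / T) (P k / T + r / T) ∪
      Icc (P (k + 1) / T - r / T) (P (k + 1) / T)) ≤ ENNReal.ofReal (2 * (r / T)) := by
    intro k _
    refine (measure_union_le _ _).trans ?_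
    rw [Real.volume_Icc, Real.volume_Icc, ← ENNReal.ofReal_add]
    · apply ENNReal.ofReal_le_ofReal
      linarith
    · have : 0 ≤ r / T := by positivity
      linarith
    · have : 0 ≤ r / T := by positivity
      linarith
  refine (Finset.sum_le_sum hk).trans ?_
  rw [Finset.sum_const, nsmul_eq_mul, ENNReal.ofReal_mul (p := (B.card : ℝ)) (by positivity),
    ENNReal.ofReal_natCast]

/-- Lebesgue density theorem, in measure -/
theorem density_meas (F : Set ℝ) (hF : MeasurableSet F) (hfin : volume F ≠ ⊤) (ρ : ℕ → ℝ)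
    (hρ : Tendsto ρ atTop (𝓝[>] 0)) (κ : ℝ) (hκ : 0 < κ) :
    Tendsto (fun n => volume {x | x ∈ F ∧
      volume (F ∩ closedBall x (ρ n)) < ENNReal.ofReal ((1 - κ) * (2 * ρ n))}) atTop (𝓝 0) := by
  have hpos : ∀ᶠ n in atTop, 0 < ρ n := hρ.eventually (self_mem_nhdsWithin)
  set As : ℕ → Set ℝ := fun n => {x | x ∈ F ∧
      volume (F ∩ closedBall x (ρ n)) < ENNReal.ofReal ((1 - κ) * (2 * ρ n))} with hAs
  have hmeas : ∀ n, MeasurableSet (As n) := by
    intro n
    exact hF.inter (measurableSet_lt (phi_meas F hF (ρ n)) measurable_const)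
  have hae : ∀ᵐ x ∂(volume.restrict F), ∀ᶠ n in atTop, x ∈ As n ↔ x ∈ (∅ : Set ℝ) := by
    filter_upwards [IsUnifLocDoublingMeasure.ae_tendsto_measure_inter_div (volume : Measure ℝ) F 1]
      with x hx
    have h1 := hx (fun _ : ℕ => x) ρ hρ (by
      filter_upwards [hpos] with n hn
      simp [hn.le])
    have h2 : ∀ᶠ n in atTop, ENNReal.ofReal (1 - κ) <
        volume (F ∩ closedBall x (ρ n)) / volume (closedBall x (ρ n)) := by
      apply h1.eventually_const_lt
      rw [← ENNReal.ofReal_one]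
      exact (ENNReal.ofReal_lt_ofReal_iff one_pos).2 (by linarith)
    filter_upwards [h2, hpos] with n hn hn0
    refine ⟨fun h => ?_, fun h => h.elim⟩
    exfalso
    have h3 := h.2
    rw [Real.volume_closedBall] at hn
    rcases le_or_gt (1 - κ) 0 with h4 | h4
    · have : ENNReal.ofReal ((1 - κ) * (2 * ρ n)) = 0 :=
        ENNReal.ofReal_of_nonpos (mul_nonpos_of_nonpos_of_nonneg h4 (by linarith))
      rw [this] at h3
      exact not_lt_zero h3
    · rw [ENNReal.ofReal_mul h4.le] at h3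
      have h5 := (ENNReal.lt_div_iff_mul_lt (Or.inl (by simp [hn0]))
        (Or.inl ENNReal.ofReal_ne_top)).1 hn
      exact absurd h3 (not_lt.2 h5.le)
  have : IsFiniteMeasure (volume.restrict F) := ⟨by
    rw [Measure.restrict_apply_univ]
    exact lt_top_iff_ne_top.2 hfin⟩
  have h := tendsto_measure_of_ae_tendsto_indicator_of_isFiniteMeasure (μ := volume.restrict F)
    atTop MeasurableSet.empty hmeas hae
  rw [measure_empty] at h
  refine h.congr fun n => ?_
  rw [Measure.restrict_apply (hmeas n)]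
  congr 1
  ext x
  exact ⟨fun h => h.1, fun h => ⟨h, h.1⟩⟩

end Pool.Agent.H749R6.MG
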