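import Mathlib
import Pool.Agent.H749R6.MG.Meas

/-! The key lemma: dilates of a set of positive measure meet the points far from all primes in a set
of measure bounded below. -/

set_option autoImplicit false

namespace Pool.Agent.H749R6.MG

open MeasureTheory Filter Topology Metric Set

/-- large gaps in almost all blocks -/
def Blocks : Prop := ∀ C ε : ℝ, 0 < ε → ∃ K : ℕ, ∃ x₀ : ℕ, ∀ x : ℕ, x₀ ≤ x →
  (((Finset.range x).filter (fun k : ℕ => ∀ i < K,
    P (k + i + 1) - P (k + i) ≤ C * Real.log (P (k + i)))).card : ℝ) ≤ ε * x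

theorem far_meas (r T : ℝ) : MeasurableSet {x : ℝ | Far r (T * x)} := by
  have : {x : ℝ | Far r (T * x)} = ⋂ p : ℕ, ⋂ _ : p.Prime, {x : ℝ | r < |T * x - p|} := by
    ext x
    simp only [mem_iInter]
    rfl
  rw [this]
  refine MeasurableSet.iInter fun p => MeasurableSet.iInter fun _ => ?_
  exact measurableSet_lt measurable_const (f := fun _ : ℝ => r) (g := fun x : ℝ => |T * x - p|)
    (by fun_prop)

/-- number of primes -/
theorem count_bound (v : ℝ) (hv : 0 < v) : ∀ᶠ T : ℝ in atTop,
    ((Nat.primeCounting ⌊v * T⌋₊ : ℕ) : ℝ) ≤ 8 * v * (T / Real.log T) := by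
  have e1 : ∀ᶠ T : ℝ in atTop, 2 ≤ v * T :=
    (tendsto_id.const_mul_atTop hv).eventually_ge_atTop 2
  have e2 : ∀ᶠ T : ℝ in atTop, -Real.log v ≤ 1 / 4 * Real.log T :=
    (Real.tendsto_log_atTop.const_mul_atTop (by norm_num)).eventually_ge_atTop _
  have e3 : ∀ᶠ T : ℝ in atTop, ‖Real.log T‖ ≤ √v * ‖T ^ (1 / 2 : ℝ)‖ :=
    (isLittleO_log_rpow_atTop (by norm_num : (0 : ℝ) < 1 / 2)).def (by positivity)
  filter_upwards [e1, e2, e3, eventually_gt_atTop (1 : ℝ)] with T h1 h2 h3 h4
  have hT0 : (0 : ℝ) < T := by linarith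
  have hl : 0 < Real.log T := Real.log_pos h4
  have h5 := Chebyshev.pi_le_log4_mul_div (x := v * T) (by linarith)
  refine h5.trans ?_
  have h6 : 3 / 4 * Real.log T ≤ Real.log (v * T) := by
    rw [Real.log_mul hv.ne' hT0.ne']
    linarith
  have h7 : 3 / 8 * Real.log T ≤ Real.log √(v * T) := by
    rw [Real.log_sqrt (by positivity)]
    linarith
  have h8 : Real.log 4 ≤ 1.4 := by
    have : Real.log 4 = 2 * Real.log 2 := by
      rw [show (4 : ℝ) = 2 ^ 2 by norm_num, Real.log_pow]
      norm_num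
    rw [this]
    have := Real.log_two_lt_d9
    linarith
  have h9 : Real.log 4 * (v * T) / Real.log √(v * T) ≤ 1.4 * (v * T) / (3 / 8 * Real.log T) := by
    apply div_le_div₀ (by positivity) _ (by positivity) h7
    exact mul_le_mul_of_nonneg_right h8 (by positivity)
  have h10 : 1.4 * (v * T) / (3 / 8 * Real.log T) = (56 / 15) * (v * (T / Real.log T)) := by
    field_simp
    norm_num
  have h11 : √(v * T) ≤ v * (T / Real.log T) := by
    rw [Real.norm_eq_abs, abs_of_pos hl, Real.norm_eq_abs, abs_of_pos (by positivity),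
      ← Real.sqrt_eq_rpow] at h3
    rw [← mul_div_assoc, le_div_iff₀ hl]
    have h12 : v * T = √(v * T) * √(v * T) := (Real.mul_self_sqrt (by positivity)).symm
    have h13 : √(v * T) = √v * √T := Real.sqrt_mul hv.le T
    calc √(v * T) * Real.log T ≤ √(v * T) * (√v * √T) :=
          mul_le_mul_of_nonneg_left h3 (Real.sqrt_nonneg _)
      _ = v * T := by rw [← h13]; exact h12.symm
  have h14 : 0 ≤ v * (T / Real.log T) := by positivity
  rw [h10] at h9
  linarith

theorem idx_lt (v T : ℝ) (k : ℕ) (hk : P k ≤ v * T) : k < Nat.primeCounting ⌊v * T⌋₊ := by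
  have h1 : Nat.nth Nat.Prime k ≤ ⌊v * T⌋₊ := Nat.le_floor hk
  have h2 : Nat.count Nat.Prime (Nat.nth Nat.Prime k + 1) ≤ Nat.primeCounting ⌊v * T⌋₊ := by
    rw [Nat.primeCounting, Nat.primeCounting']
    exact Nat.count_monotone _ (by omega)
  have h3 : Nat.count Nat.Prime (Nat.nth Nat.Prime k + 1) = k + 1 :=
    Nat.count_nth_succ_of_infinite Nat.infinite_setOfPred_prime k
  omega

theorem count_tendsto (v : ℝ) (hv : 0 < v) :
    Tendsto (fun T : ℝ => Nat.primeCounting ⌊v * T⌋₊) atTop atTop := by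
  refine Nat.tendsto_primeCounting.comp ?_
  exact tendsto_nat_floor_atTop.comp (tendsto_id.const_mul_atTop hv)

theorem scale (z T s w : ℝ) (hT : 0 < T) (hw : w ∈ Ioo (z / T - s) (z / T + s)) :
    |T * w - z| < s * T := by
  have hz : T * (z / T) = z := by field_simp
  have h1 := mul_lt_mul_of_pos_left hw.1 hT
  have h2 := mul_lt_mul_of_pos_left hw.2 hT
  rw [mul_sub, hz] at h1
  rw [mul_add, hz] at h2
  rw [abs_lt]
  constructor <;> linarith

theorem lemB (hB : Blocks) (t : ℕ → ℝ) (ht : Tendsto t atTop atTop) (u v C : ℝ) (hu : 0 < u)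
    (huv : u ≤ v) (hC : 0 < C) (F : Set ℝ) (hF : MeasurableSet F) (hFs : F ⊆ Icc u v)
    (hpos : 0 < volume F) : ∃ c' : ℝ, 0 < c' ∧ ∀ᶠ n in atTop,
      ENNReal.ofReal c' ≤ volume (F ∩ {x | Far (C * Real.log (t n)) (t n * x)}) := by
  classical
  have hv : 0 < v := hu.trans_le huv
  have hfin : volume F ≠ ⊤ := by
    refine ne_top_of_le_ne_top ?_ (measure_mono hFs)
    rw [Real.volume_Icc]
    exact ENNReal.ofReal_ne_top
  set μ : ℝ := (volume F).toReal with hμ
  have hμ0 : 0 < μ := ENNReal.toReal_pos hpos.ne' hfin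
  have hμF : volume F = ENNReal.ofReal μ := (ENNReal.ofReal_toReal hfin).symm
  obtain ⟨K, x₀, hK⟩ := hB (8 * C) (μ / (128 * v * C)) (by positivity)
  obtain ⟨L, hL0, hL⟩ := geom u v C hu huv hC K
  set L' : ℝ := L + 2 * C with hL'
  have hL'0 : 0 < L' := by positivity
  set κ : ℝ := C / L' with hκ
  have hκ0 : 0 < κ := by positivity
  set ρ : ℕ → ℝ := fun n => L' * (Real.log (t n) / t n) with hρ
  have hlogdiv : Tendsto (fun T : ℝ => Real.log T / T) atTop (𝓝[>] 0) := by
    rw [tendsto_nhdsWithin_iff]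
    refine ⟨?_, ?_⟩
    · have := Real.isLittleO_log_id_atTop.tendsto_div_nhds_zero
      exact this
    · filter_upwards [eventually_gt_atTop (1 : ℝ)] with T hT
      exact div_pos (Real.log_pos hT) (by linarith)
  have hρlim : Tendsto ρ atTop (𝓝[>] 0) := by
    have h1 := (hlogdiv.comp ht)
    rw [tendsto_nhdsWithin_iff] at h1 ⊢
    refine ⟨?_, ?_⟩
    · have := h1.1.const_mul L'
      rw [mul_zero] at this
      exact this
    · filter_upwards [h1.2] with n hn
      exact mul_pos hL'0 hn
  have hdens := density_meas F hF hfin ρ hρlim κ hκ0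
  have hdens' := hdens.eventually_le_const (u := ENNReal.ofReal (μ / 8))
    (ENNReal.ofReal_pos.2 (by positivity))
  refine ⟨(μ / 2) / (1 + 2 / κ), by positivity, ?_⟩
  filter_upwards [hdens', ht.eventually hL, ht.eventually (count_bound v hv),
    ((count_tendsto v hv).comp ht).eventually_ge_atTop x₀, ht.eventually_gt_atTop 1,
    ht.eventually_ge_atTop (2 / u)] with n h1 h2 h3 h4 h5 h6
  set T : ℝ := t n with hTdef
  have hT0 : 0 < T := by linarith
  have hlT : 0 < Real.log T := Real.log_pos h5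
  set A : Set ℝ := F ∩ {x | Far (C * Real.log T) (T * x)} with hA
  have hAm : MeasurableSet A := hF.inter (far_meas _ _)
  set X : ℕ := Nat.primeCounting ⌊v * T⌋₊ with hX
  set B : Finset ℕ := (Finset.range X).filter (fun k : ℕ => ∀ i < K,
    P (k + i + 1) - P (k + i) ≤ 8 * C * Real.log (P (k + i))) with hBdef
  have hBcard : (B.card : ℝ) ≤ μ / (128 * v * C) * X := hK X h4
  set S2 : Set ℝ := {x : ℝ | ¬ Far (C * Real.log T) (T * x) ∧
    ∃ k ∈ B, P k ≤ T * x ∧ T * x < P (k + 1)} with hS2
  have hS2m : volume S2 ≤ ENNReal.ofReal (μ / 8) := by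
    refine (bad_meas T (C * Real.log T) hT0 B).trans (ENNReal.ofReal_le_ofReal ?_)
    have h7 : (B.card : ℝ) ≤ μ / (128 * v * C) * (8 * v * (T / Real.log T)) :=
      hBcard.trans (mul_le_mul_of_nonneg_left h3 (by positivity))
    have h8 : (B.card : ℝ) * (2 * (C * Real.log T / T)) ≤
        μ / (128 * v * C) * (8 * v * (T / Real.log T)) * (2 * (C * Real.log T / T)) :=
      mul_le_mul_of_nonneg_right h7 (by positivity)
    refine h8.trans (le_of_eq ?_)
    field_simp
    norm_num
  set G : Set ℝ := {x : ℝ | ENNReal.ofReal (2 * (C * Real.log T / T)) ≤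
    volume (A ∩ closedBall x (ρ n))} with hG
  have hρn : ρ n = L' * (Real.log T / T) := rfl
  have hcov : F ⊆ A ∪ (S2 ∪ ({x | x ∈ F ∧
      volume (F ∩ closedBall x (ρ n)) < ENNReal.ofReal ((1 - κ) * (2 * ρ n))} ∪ G)) := by
    intro x hx
    by_cases hfar : Far (C * Real.log T) (T * x)
    · exact Or.inl ⟨hx, hfar⟩
    right
    obtain ⟨hx1, hx2⟩ := hFs hx
    have hy1 : u * T ≤ T * x := by
      rw [mul_comm]
      exact mul_le_mul_of_nonneg_left hx1 hT0.le
    have hy2 : T * x ≤ v * T := by
      rw [mul_comm v]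
      exact mul_le_mul_of_nonneg_left hx2 hT0.le
    have hy3 : 2 ≤ T * x := by
      have : 2 ≤ u * T := by
        rw [div_le_iff₀ hu] at h6
        linarith
      linarith
    obtain ⟨k, hk1, hk2⟩ := exists_idx (T * x) hy3
    by_cases hkB : k ∈ B
    · exact Or.inl ⟨hfar, k, hkB, hk1, hk2⟩
    right
    by_cases hd : volume (F ∩ closedBall x (ρ n)) < ENNReal.ofReal ((1 - κ) * (2 * ρ n))
    · exact Or.inl ⟨hx, hd⟩
    right
    have hkX : k < X := idx_lt v T k (hk1.trans hy2)
    have hex : ∃ i < K, 8 * C * Real.log (P (k + i)) < P (k + i + 1) - P (k + i) := by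
      by_contra hcon
      push Not at hcon
      exact hkB (Finset.mem_filter.2 ⟨Finset.mem_range.2 hkX, hcon⟩)
    obtain ⟨z, hz1, hz2⟩ := h2 (T * x) hy1 hy2 k hk1 hk2 hfar hex
    -- the interval around z / T
    set s : ℝ := 2 * (C * Real.log T / T) with hs
    have hs0 : 0 < s := by positivity
    have hsT : s * T = 2 * C * Real.log T := by
      rw [hs]
      field_simp
    have hρT : ρ n * T = L' * Real.log T := by
      rw [hρn]
      field_simp
    have hsub : Ioo (z / T - s) (z / T + s) ⊆ closedBall x (ρ n) := by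
      intro w hw
      rw [mem_closedBall, Real.dist_eq]
      have h7 : |T * w - z| < 2 * C * Real.log T := by
        rw [← hsT]
        exact scale z T s w hT0 hw
      have h8 : |T * w - T * x| ≤ L' * Real.log T := by
        have : T * w - T * x = (T * w - z) + (z - T * x) := by ring
        rw [this]
        refine (abs_add_le _ _).trans ?_
        rw [hL']
        linarith
      rw [← mul_sub, abs_mul, abs_of_pos hT0, ← hρT, mul_comm (ρ n)] at h8
      exact le_of_mul_le_mul_left h8 hT0
    have hfarw : Ioo (z / T - s) (z / T + s) ⊆ {x | Far (C * Real.log T) (T * x)} := by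
      intro w hw
      apply hz2
      rw [← hsT]
      exact scale z T s w hT0 hw
    have hsρ : s ≤ ρ n := by
      have h7 : s * T ≤ ρ n * T := by
        rw [hsT, hρT, hL', add_mul]
        have : 0 ≤ L * Real.log T := by positivity
        linarith
      exact le_of_mul_le_mul_right h7 hT0
    have hk2' : κ * (2 * ρ n) = s := by
      rw [hκ, hρn, hs]
      field_simp
    have hF2 : ENNReal.ofReal (2 * ρ n - s) ≤ volume (F ∩ closedBall x (ρ n)) := by
      have h7 := not_lt.1 hd
      have h8 : (1 - κ) * (2 * ρ n) = 2 * ρ n - s := by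
        rw [← hk2']
        ring
      rw [h8] at h7
      exact h7
    have h7 := local_meas F x (ρ n) (z / T) s hs0.le hsub hsρ hF2
    refine h7.trans (measure_mono ?_)
    intro w hw
    exact ⟨⟨hw.1, hfarw hw.2⟩, hsub hw.2⟩
  have hGm := markov_ball A hAm (ρ n) (2 * (C * Real.log T / T))
  have hAfin : volume A ≠ ⊤ := ne_top_of_le_ne_top hfin (measure_mono inter_subset_left)
  set a : ℝ := (volume A).toReal with ha
  have haA : volume A = ENNReal.ofReal a := (ENNReal.ofReal_toReal hAfin).symm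
  have ha0 : 0 ≤ a := ENNReal.toReal_nonneg
  have hGle : volume G ≤ ENNReal.ofReal (a / κ) := by
    rw [haA, ← ENNReal.ofReal_mul (by rw [hρn]; positivity)] at hGm
    have h7 : volume G ≤ ENNReal.ofReal (2 * ρ n * a) / ENNReal.ofReal (2 * (C * Real.log T / T)) := by
      rw [ENNReal.le_div_iff_mul_le (Or.inl (by
        rw [Ne, ENNReal.ofReal_eq_zero, not_le]
        positivity)) (Or.inl ENNReal.ofReal_ne_top), mul_comm]
      exact hGm
    rw [← ENNReal.ofReal_div_of_pos (by positivity)] at h7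
    refine h7.trans (ENNReal.ofReal_le_ofReal (le_of_eq ?_))
    rw [hρn, hκ]
    field_simp
  have htot : ENNReal.ofReal μ ≤ ENNReal.ofReal (a + (μ / 8 + (μ / 8 + a / κ))) := by
    rw [← hμF]
    refine (measure_mono hcov).trans ((measure_union_le _ _).trans ?_)
    rw [ENNReal.ofReal_add ha0 (by positivity), ← haA]
    refine add_le_add le_rfl ((measure_union_le _ _).trans ?_)
    rw [ENNReal.ofReal_add (by positivity) (by positivity)]
    refine add_le_add hS2m ((measure_union_le _ _).trans ?_)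
    rw [ENNReal.ofReal_add (by positivity) (by positivity)]
    exact add_le_add h1 hGle
  have htot' : μ ≤ a + (μ / 8 + (μ / 8 + a / κ)) :=
    (ENNReal.ofReal_le_ofReal_iff (by positivity)).1 htot
  rw [haA]
  apply ENNReal.ofReal_le_ofReal
  rw [div_le_iff₀ (by positivity)]
  have h7 : a * (1 + 2 / κ) = a + 2 * (a / κ) := by ring
  have h8 : 0 ≤ a / κ := by positivity
  rw [h7]
  linarith

end Pool.Agent.H749R6.MG
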