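import Mathlib
import Pool.Agent.H749R6.MG.Core

/-! From the key lemma to positive upper density for almost every `x`. -/

set_option autoImplicit false

namespace Pool.Agent.H749R6.MG

open MeasureTheory Filter Topology Metric Set

/-- the averages -/
noncomputable def av (E : ℕ → Set ℝ) (N : ℕ) (x : ℝ) : ℝ :=
  (∑ n ∈ Finset.range N, (E n).indicator (fun _ => (1 : ℝ)) x) / N

theorem av_meas (E : ℕ → Set ℝ) (hE : ∀ n, MeasurableSet (E n)) (N : ℕ) :
    Measurable (av E N) := by
  unfold av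
  apply Measurable.div_const
  exact Finset.measurable_sum _ fun n _ => (measurable_const.indicator (hE n))

theorem av_nonneg (E : ℕ → Set ℝ) (N : ℕ) (x : ℝ) : 0 ≤ av E N x := by
  unfold av
  refine div_nonneg (Finset.sum_nonneg fun n _ => ?_) (Nat.cast_nonneg _)
  exact indicator_nonneg (fun _ _ => zero_le_one) x

theorem av_le (E : ℕ → Set ℝ) (N : ℕ) (x : ℝ) : av E N x ≤ 1 := by
  unfold av
  rcases Nat.eq_zero_or_pos N with h | h
  · subst h
    simp
  rw [div_le_one (by exact_mod_cast h)]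
  have : ∑ n ∈ Finset.range N, (E n).indicator (fun _ => (1 : ℝ)) x ≤
      ∑ n ∈ Finset.range N, (1 : ℝ) := by
    refine Finset.sum_le_sum fun n _ => ?_
    by_cases hx : x ∈ E n
    · rw [indicator_of_mem hx]
    · rw [indicator_of_notMem hx]
      exact zero_le_one
  refine this.trans (le_of_eq ?_)
  simp

/-- general principle -/
theorem upper_density (E : ℕ → Set ℝ) (hE : ∀ n, MeasurableSet (E n))
    (H : ∀ u v : ℝ, 0 < u → u ≤ v → ∀ F : Set ℝ, MeasurableSet F → F ⊆ Icc u v → 0 < volume F →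
      ∃ c' : ℝ, 0 < c' ∧ ∀ᶠ n in atTop, ENNReal.ofReal c' ≤ volume (F ∩ E n)) :
    ∀ᵐ x : ℝ, 0 < x → ¬ Tendsto (fun N => av E N x) atTop (𝓝 0) := by
  set Z : Set ℝ := {x | 0 < x ∧ Tendsto (fun N => av E N x) atTop (𝓝 0)} with hZ
  have hZm : MeasurableSet Z :=
    (measurableSet_lt measurable_const measurable_id).inter
      (measurableSet_tendsto (𝓝 0) (fun N => av_meas E hE N))
  have key : volume Z = 0 := by
    have hcov : Z ⊆ ⋃ m : ℕ, Z ∩ Icc (1 / ((m : ℝ) + 1)) ((m : ℝ) + 1) := by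
      intro x hx
      have hx0 : 0 < x := hx.1
      obtain ⟨m₁, hm₁⟩ := exists_nat_gt x
      obtain ⟨m₂, hm₂⟩ := exists_nat_gt (1 / x)
      rw [mem_iUnion]
      refine ⟨max m₁ m₂, hx, ?_, ?_⟩
      · rw [div_le_iff₀ (by positivity)]
        rw [div_lt_iff₀ hx0] at hm₂
        have : (m₂ : ℝ) ≤ (max m₁ m₂ : ℕ) := by exact_mod_cast le_max_right _ _
        nlinarith
      · have : (m₁ : ℝ) ≤ (max m₁ m₂ : ℕ) := by exact_mod_cast le_max_left _ _
        linarith
    refine measure_mono_null hcov (measure_iUnion_null fun m => ?_)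
    by_contra hne
    set F : Set ℝ := Z ∩ Icc (1 / ((m : ℝ) + 1)) ((m : ℝ) + 1) with hF
    have hFm : MeasurableSet F := hZm.inter measurableSet_Icc
    have hpos : 0 < volume F := pos_iff_ne_zero.2 hne
    have hfin : volume F ≠ ⊤ := by
      refine ne_top_of_le_ne_top ?_ (measure_mono inter_subset_right)
      rw [Real.volume_Icc]
      exact ENNReal.ofReal_ne_top
    have h1m : 1 / ((m : ℝ) + 1) ≤ (m : ℝ) + 1 := by
      rw [div_le_iff₀ (by positivity)]
      have : (0 : ℝ) ≤ m := Nat.cast_nonneg m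
      nlinarith
    obtain ⟨c', hc', hev⟩ := H (1 / ((m : ℝ) + 1)) ((m : ℝ) + 1) (by positivity) h1m F hFm
      inter_subset_right hpos
    have hfm : IsFiniteMeasure (volume.restrict F) := ⟨by
      rw [Measure.restrict_apply_univ]
      exact lt_top_iff_ne_top.2 hfin⟩
    have hlim : Tendsto (fun N => ∫ x in F, av E N x) atTop (𝓝 (∫ x in F, (0 : ℝ))) := by
      refine tendsto_integral_of_dominated_convergence (fun _ => (1 : ℝ))
        (fun N => (av_meas E hE N).aestronglyMeasurable) (integrable_const _) ?_ ?_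
      · intro N
        refine Eventually.of_forall fun x => ?_
        rw [Real.norm_eq_abs, abs_of_nonneg (av_nonneg E N x)]
        exact av_le E N x
      · rw [ae_restrict_iff' hFm]
        exact Eventually.of_forall fun x hx => hx.1.2
    rw [integral_zero] at hlim
    have hval : ∀ N : ℕ, ∫ x in F, av E N x =
        (∑ n ∈ Finset.range N, (volume (F ∩ E n)).toReal) / N := by
      intro N
      unfold av
      rw [integral_div, integral_finsetSum]
      · congr 1
        refine Finset.sum_congr rfl fun n _ => ?_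
        rw [integral_indicator (hE n), setIntegral_const, smul_eq_mul, mul_one, measureReal_def,
          Measure.restrict_apply (hE n), inter_comm]
      · intro n _
        exact (integrable_const (1 : ℝ)).indicator (hE n)
    obtain ⟨n₀, hn₀⟩ := eventually_atTop.1 hev
    have hsmall := hlim.eventually_lt_const (u := c' / 2) (by positivity)
    obtain ⟨N, hN1, hN2⟩ := (hsmall.and (eventually_ge_atTop (2 * n₀ + 1))).exists
    rw [hval] at hN1
    have hN0 : (0 : ℝ) < N := by
      have : 0 < N := by omega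
      exact_mod_cast this
    rw [div_lt_iff₀ hN0] at hN1
    have hlow : ((N : ℝ) - n₀) * c' ≤ ∑ n ∈ Finset.range N, (volume (F ∩ E n)).toReal := by
      have h1 : ∑ n ∈ Finset.Ico n₀ N, c' ≤
          ∑ n ∈ Finset.Ico n₀ N, (volume (F ∩ E n)).toReal := by
        refine Finset.sum_le_sum fun n hn => ?_
        rw [Finset.mem_Ico] at hn
        have := hn₀ n hn.1
        exact (ENNReal.ofReal_le_iff_le_toReal
          (ne_top_of_le_ne_top hfin (measure_mono inter_subset_left))).1 this
      have h2 : ∑ n ∈ Finset.Ico n₀ N, (volume (F ∩ E n)).toReal ≤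
          ∑ n ∈ Finset.range N, (volume (F ∩ E n)).toReal := by
        apply Finset.sum_le_sum_of_subset_of_nonneg
        · intro n hn
          rw [Finset.mem_Ico] at hn
          exact Finset.mem_range.2 hn.2
        · intro _ _ _
          exact ENNReal.toReal_nonneg
      rw [Finset.sum_const, Nat.card_Ico, nsmul_eq_mul, Nat.cast_sub (by omega)] at h1
      exact h1.trans h2
    have hN3 : (2 * n₀ + 1 : ℝ) ≤ N := by exact_mod_cast hN2
    nlinarith
  rw [ae_iff]
  refine measure_mono_null ?_ key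
  intro x hx
  rw [mem_ofPred_eq] at hx
  push Not at hx
  exact hx

theorem freq_of_not_tendsto (E : ℕ → Set ℝ) (x : ℝ)
    (h : ¬ Tendsto (fun N => av E N x) atTop (𝓝 0)) :
    ∃ δ : ℝ, 0 < δ ∧ ∃ᶠ N in atTop, δ ≤ av E N x := by
  by_contra hcon
  push Not at hcon
  apply h
  rw [Metric.tendsto_atTop']
  intro ε hε
  have h1 := hcon ε hε
  obtain ⟨N₀, hN₀⟩ := eventually_atTop.1 h1
  refine ⟨N₀, fun N hN => ?_⟩
  rw [Real.dist_eq, sub_zero, abs_of_nonneg (av_nonneg E N x)]
  exact hN₀ N hN.le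

theorem count_of_av (t : ℕ → ℝ) (ht : Tendsto t atTop atTop) (x C : ℝ) (m : ℕ) (hm : C ≤ m)
    (δ : ℝ) (hδ : 0 < δ)
    (h : ∃ᶠ N in atTop, δ ≤ av (fun n => {x | Far (m * Real.log (t n)) (t n * x)}) N x) :
    ∃ᶠ N : ℕ in atTop, δ / 2 * N ≤
      ({n : ℕ | n < N ∧ ∀ p : ℕ, p.Prime → C * Real.log (t n) < |t n * x - p|}.ncard : ℝ) := by
  classical
  obtain ⟨n₀, hn₀⟩ := eventually_atTop.1 (ht.eventually_ge_atTop 1)
  have h2 : ∀ᶠ N : ℕ in atTop, (n₀ : ℝ) ≤ δ / 2 * N :=
    (tendsto_natCast_atTop_atTop.const_mul_atTop (by positivity)).eventually_ge_atTop _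
  refine (h.and_eventually (h2.and (eventually_gt_atTop 0))).mono ?_
  rintro N ⟨h3, h4, h5⟩
  have hN : (0 : ℝ) < N := by exact_mod_cast h5
  unfold av at h3
  rw [le_div_iff₀ hN] at h3
  set S : Finset ℕ := (Finset.range N).filter (fun n => Far (m * Real.log (t n)) (t n * x)) with hS
  have h6 : ∑ n ∈ Finset.range N,
      ((fun n => {x | Far (m * Real.log (t n)) (t n * x)}) n).indicator (fun _ => (1 : ℝ)) x =
      S.card := by
    rw [hS, Finset.card_filter]
    push_cast
    refine Finset.sum_congr rfl fun n _ => ?_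
    by_cases hf : Far (m * Real.log (t n)) (t n * x)
    · rw [if_pos hf]
      exact indicator_of_mem (s := {x | Far (m * Real.log (t n)) (t n * x)}) hf _
    · rw [if_neg hf]
      exact indicator_of_notMem (s := {x | Far (m * Real.log (t n)) (t n * x)}) hf _
  rw [h6] at h3
  have h7 : S ⊆ Finset.range n₀ ∪ S.filter (fun n => n₀ ≤ n) := by
    intro n hn
    rcases Nat.lt_or_ge n n₀ with h | h
    · exact Finset.mem_union_left _ (Finset.mem_range.2 h)
    · exact Finset.mem_union_right _ (Finset.mem_filter.2 ⟨hn, h⟩)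
  have h8 : (S.card : ℝ) ≤ n₀ + (S.filter (fun n => n₀ ≤ n)).card := by
    have := (Finset.card_le_card h7).trans (Finset.card_union_le _ _)
    rw [Finset.card_range] at this
    exact_mod_cast this
  have h9 : ((S.filter (fun n => n₀ ≤ n)).card : ℝ) ≤
      ({n : ℕ | n < N ∧ ∀ p : ℕ, p.Prime → C * Real.log (t n) < |t n * x - p|}.ncard : ℝ) := by
    rw [← Set.ncard_coe_finset]
    have hfinset : ({n : ℕ | n < N ∧
        ∀ p : ℕ, p.Prime → C * Real.log (t n) < |t n * x - p|} : Set ℕ).Finite :=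
      (Set.finite_lt_nat N).subset fun n hn => hn.1
    have : (↑(S.filter (fun n => n₀ ≤ n)) : Set ℕ) ⊆
        {n : ℕ | n < N ∧ ∀ p : ℕ, p.Prime → C * Real.log (t n) < |t n * x - p|} := by
      intro n hn
      rw [Finset.mem_coe, Finset.mem_filter, hS, Finset.mem_filter, Finset.mem_range] at hn
      refine ⟨hn.1.1, fun p hp => ?_⟩
      have h10 := hn.1.2 p hp
      have h11 : 0 ≤ Real.log (t n) := Real.log_nonneg (hn₀ n hn.2)
      exact (mul_le_mul_of_nonneg_right hm h11).trans_lt h10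
    exact_mod_cast Set.ncard_le_ncard this hfinset
  linarith

/-- **main theorem** -/
theorem main (hB : Blocks) (t : ℕ → ℝ) (ht : Tendsto t atTop atTop) :
    ∀ᵐ x : ℝ, 0 < x → ∀ C : ℝ, ∃ δ : ℝ, 0 < δ ∧ ∃ᶠ N : ℕ in atTop, δ * N ≤
      ({n : ℕ | n < N ∧ ∀ p : ℕ, p.Prime → C * Real.log (t n) < |t n * x - p|}.ncard : ℝ) := by
  have h : ∀ m : ℕ, ∀ᵐ x : ℝ, 0 < x → ¬ Tendsto
      (fun N => av (fun n => {x | Far (((m + 1 : ℕ) : ℝ) * Real.log (t n)) (t n * x)}) N x)
      atTop (𝓝 0) := by
    intro m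
    refine upper_density _ (fun n => far_meas _ _) ?_
    intro u v hu huv F hF hFs hpos
    exact lemB hB t ht u v _ hu huv (by positivity) F hF hFs hpos
  filter_upwards [ae_all_iff.2 h] with x hx hx0 C
  obtain ⟨m, hm⟩ := exists_nat_ge C
  have hm' : C ≤ ((m + 1 : ℕ) : ℝ) := by
    push_cast
    linarith
  obtain ⟨δ, hδ, hfr⟩ := freq_of_not_tendsto _ x (hx m hx0)
  exact ⟨δ / 2, by positivity, count_of_av t ht x C (m + 1) hm' δ hδ hfr⟩

end Pool.Agent.H749R6.MG
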