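import Pool.Agent.Results.MP_711652_nt.LargeGapsInBlocks
import Pool.Agent.H749R6.MG.Final

/-! Almost all blocks of consecutive primes contain a large gap. -/

set_option autoImplicit false

namespace Pool.Agent.H749R6.MG

theorem blocks : Blocks := by
  intro C ε hε
  obtain ⟨c, hc, K₀, h⟩ := Pool.Agent.Results.MP_711652_nt.LargeGapsInBlocks.result C ε hε
  obtain ⟨x₀, hx⟩ := h (max K₀ 1) (le_max_left _ _)
  refine ⟨max K₀ 1, x₀, fun x hx0 => le_trans ?_ (hx x hx0)⟩
  norm_cast
  apply Finset.card_le_card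
  intro k hk
  rw [Finset.mem_filter] at hk ⊢
  refine ⟨hk.1, ?_⟩
  rw [Finset.filter_false_of_mem]
  · rw [Finset.card_empty, Nat.cast_zero]
    have : (0 : ℝ) < ((max K₀ 1 : ℕ) : ℝ) := by
      exact_mod_cast lt_of_lt_of_le one_pos (le_max_right K₀ 1)
    positivity
  · intro i hi
    exact not_lt.2 (hk.2 i (Finset.mem_range.1 hi))

end Pool.Agent.H749R6.MG
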