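import Mathlib
import Pool.Agent.Helper923.PNT
import Pool.Agent.H646.Tuples
import Pool.Agent.H749R6.MG.Arith

/-! A positive proportion of the points of every window are shortly above a prime. -/

set_option autoImplicit false

namespace Pool.Agent.H749R6.MG

open MeasureTheory Filter Topology Set
open Pool.Agent.H646 (rat)

/-- there is a prime in `(y - r, y)` -/
def Above (r y : ℝ) : Prop := ∃ p : ℕ, p.Prime ∧ y - r < p ∧ (p : ℝ) < y

open Finset in
theorem pairs_bound : ∃ C : ℝ, 0 < C ∧ ∃ x₀ : ℕ, ∀ x : ℕ, x₀ ≤ x → ∀ a D : ℕ,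
    ∑ h ∈ Finset.Icc 1 D,
      (#{m ∈ Finset.Icc 1 x | (m + a).Prime ∧ (m + a + h).Prime} : ℝ) ≤
      C * D * (x / (Real.log x) ^ 2) := by
  obtain ⟨C, hC, A, x₀, h1⟩ := Pool.Agent.H646.TuplesM.tuple_bound 2 (by norm_num)
  obtain ⟨C', hC', h2⟩ := Pool.Agent.H646.MomentM.rat_moment A
  refine ⟨C * C', by positivity, x₀, fun x hx a D => ?_⟩
  have h3 : ∀ h ∈ Finset.Icc 1 D,
      (#{m ∈ Finset.Icc 1 x | (m + a).Prime ∧ (m + a + h).Prime} : ℝ) ≤
      C * x / (Real.log x) ^ 2 * rat h ^ A := by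
    intro h hh
    rw [Finset.mem_Icc] at hh
    have hd : StrictMono (![a, a + h] : Fin 2 → ℕ) := by
      intro i j hij
      fin_cases i <;> fin_cases j <;> simp_all
      omega
    have h4 := h1 x hx ![a, a + h] hd
    have h5 : ∏ q ∈ (Finset.univ : Finset (Fin 2 × Fin 2)) with q.1 < q.2,
        rat ((![a, a + h] : Fin 2 → ℕ) q.2 - (![a, a + h] : Fin 2 → ℕ) q.1) ^ A = rat h ^ A := by
      have h6 : (Finset.univ : Finset (Fin 2 × Fin 2)).filter (fun q => q.1 < q.2) = {(0, 1)} := by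
        decide
      rw [h6, Finset.prod_singleton]
      simp
    rw [h5] at h4
    refine le_trans (le_of_eq ?_) h4
    congr 2
    apply Finset.filter_congr
    intro m _
    rw [Fin.forall_fin_two]
    simp [add_assoc]
  refine (Finset.sum_le_sum h3).trans ?_
  rw [← Finset.mul_sum]
  calc C * x / (Real.log x) ^ 2 * ∑ h ∈ Finset.Icc 1 D, rat h ^ A
      ≤ C * x / (Real.log x) ^ 2 * (C' * D) := by
        apply mul_le_mul_of_nonneg_left (h2 D)
        positivity
    _ = C * C' * D * (x / (Real.log x) ^ 2) := by ring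

/-- primes in a window -/
theorem prime_count (a x : ℕ) (η : ℝ) (hη : 0 < η)
    (h1 : |Chebyshev.theta (a : ℝ) - a| ≤ η * a)
    (h2 : |Chebyshev.theta ((a + x : ℕ) : ℝ) - (a + x : ℕ)| ≤ η * (a + x : ℕ))
    (h3 : 4 * η * (a + x : ℕ) ≤ x) (h4 : 2 ≤ a + x) :
    (x : ℝ) / 2 ≤ (((Finset.Ioc a (a + x)).filter Nat.Prime).card : ℝ) *
      Real.log ((a + x : ℕ) : ℝ) := by
  have h5 : Chebyshev.theta ((a + x : ℕ) : ℝ) - Chebyshev.theta (a : ℝ) =
      ∑ p ∈ (Finset.Ioc a (a + x)).filter Nat.Prime, Real.log p := by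
    rw [Chebyshev.theta, Chebyshev.theta, Nat.floor_natCast, Nat.floor_natCast]
    have h6 : (Finset.Ioc 0 (a + x)).filter Nat.Prime =
        (Finset.Ioc 0 a).filter Nat.Prime ∪ (Finset.Ioc a (a + x)).filter Nat.Prime := by
      rw [← Finset.filter_union, Finset.Ioc_union_Ioc_eq_Ioc (Nat.zero_le _) (Nat.le_add_right _ _)]
    rw [h6, Finset.sum_union]
    · ring
    · apply Finset.disjoint_filter_filter
      rw [Finset.disjoint_left]
      intro p hp hq
      rw [Finset.mem_Ioc] at hp hq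
      omega
  have h6 : ∑ p ∈ (Finset.Ioc a (a + x)).filter Nat.Prime, Real.log p ≤
      (((Finset.Ioc a (a + x)).filter Nat.Prime).card : ℝ) * Real.log ((a + x : ℕ) : ℝ) := by
    rw [← nsmul_eq_mul]
    refine Finset.sum_le_card_nsmul _ _ _ fun p hp => ?_
    rw [Finset.mem_filter, Finset.mem_Ioc] at hp
    apply Real.log_le_log
    · exact_mod_cast hp.2.pos
    · exact_mod_cast hp.1.2
  rw [abs_le] at h1 h2
  have h7 : (a : ℝ) ≤ (a + x : ℕ) := by exact_mod_cast Nat.le_add_right a x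
  have h8 : ((a + x : ℕ) : ℝ) = a + x := by push_cast; ring
  have h9 : η * a ≤ η * (a + x : ℕ) := mul_le_mul_of_nonneg_left h7 hη.le
  rw [← h5] at h6
  linarith [h1.1, h1.2, h2.1, h2.2]

open Finset in
/-- isolated primes in a window -/
theorem isolated_count (a x D : ℕ) (S : ℝ)
    (hS : ∑ h ∈ Finset.Icc 1 D,
      (#{m ∈ Finset.Icc 1 x | (m + a).Prime ∧ (m + a + h).Prime} : ℝ) ≤ S) :
    (((Finset.Ioc a (a + x)).filter Nat.Prime).card : ℝ) - S ≤
      ((((Finset.Ioc a (a + x)).filter Nat.Prime).filter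
        (fun p => ∀ h ∈ Finset.Icc 1 D, ¬ (p + h).Prime)).card : ℝ) := by
  classical
  set Q := (Finset.Ioc a (a + x)).filter Nat.Prime with hQ
  set Q' := Q.filter (fun p => ∀ h ∈ Finset.Icc 1 D, ¬ (p + h).Prime) with hQ'
  have h1 : Q ⊆ Q' ∪ (Finset.Icc 1 D).biUnion (fun h =>
      ({m ∈ Finset.Icc 1 x | (m + a).Prime ∧ (m + a + h).Prime} : Finset ℕ).image (fun m => m + a)) := by
    intro p hp
    by_cases h : ∀ h ∈ Finset.Icc 1 D, ¬ (p + h).Prime
    · exact Finset.mem_union_left _ (Finset.mem_filter.2 ⟨hp, h⟩)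
    · push Not at h
      obtain ⟨h, hh, hpr⟩ := h
      apply Finset.mem_union_right
      rw [Finset.mem_biUnion]
      refine ⟨h, hh, ?_⟩
      rw [hQ, Finset.mem_filter, Finset.mem_Ioc] at hp
      rw [Finset.mem_image]
      refine ⟨p - a, ?_, by omega⟩
      rw [Finset.mem_filter, Finset.mem_Icc]
      have e : p - a + a = p := by omega
      rw [e]
      exact ⟨by omega, hp.2, hpr⟩
  have h2 : (Q.card : ℝ) ≤ Q'.card + ∑ h ∈ Finset.Icc 1 D,
      (#{m ∈ Finset.Icc 1 x | (m + a).Prime ∧ (m + a + h).Prime} : ℝ) := by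
    have h3 := (Finset.card_le_card h1).trans (Finset.card_union_le _ _)
    have h4 := h3.trans (Nat.add_le_add_left Finset.card_biUnion_le _)
    have h5 : ∑ h ∈ Finset.Icc 1 D,
        (({m ∈ Finset.Icc 1 x | (m + a).Prime ∧ (m + a + h).Prime} : Finset ℕ).image
          (fun m => m + a)).card ≤
        ∑ h ∈ Finset.Icc 1 D, #{m ∈ Finset.Icc 1 x | (m + a).Prime ∧ (m + a + h).Prime} :=
      Finset.sum_le_sum fun h _ => Finset.card_image_le
    have h6 := h4.trans (Nat.add_le_add_left h5 _)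
    exact_mod_cast h6
  linarith

/-- the measure of the points shortly above isolated primes -/
theorem isolated_meas (Q' : Finset ℕ) (D : ℕ) (hQ : ∀ p ∈ Q', p.Prime)
    (hQ' : ∀ p ∈ Q', ∀ h ∈ Finset.Icc 1 D, ¬ (p + h).Prime) (u v r : ℝ) (hr : (D : ℝ) ≤ r)
    (hu : ∀ p ∈ Q', u ≤ (p : ℝ)) (hv : ∀ p ∈ Q', (p : ℝ) + D ≤ v) :
    ENNReal.ofReal (Q'.card * D) ≤ volume (Icc u v ∩ {y | Above r y}) := by
  have h1 : (⋃ p ∈ Q', Ioo (p : ℝ) (p + D)) ⊆ Icc u v ∩ {y | Above r y} := by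
    intro y hy
    rw [mem_iUnion₂] at hy
    obtain ⟨p, hp, hy1, hy2⟩ := hy
    refine ⟨⟨(hu p hp).trans hy1.le, hy2.le.trans (hv p hp)⟩, p, hQ p hp, ?_, hy1⟩
    linarith
  have h2 : volume (⋃ p ∈ Q', Ioo (p : ℝ) (p + D)) = ∑ p ∈ Q', volume (Ioo (p : ℝ) (p + D)) := by
    apply measure_biUnion_finset
    · have key : ∀ p ∈ Q', ∀ q ∈ Q', p < q → Disjoint (Ioo (p : ℝ) (p + D)) (Ioo (q : ℝ) (q + D)) := by
        intro p hp q hq hpq
        rw [Set.disjoint_left]
        intro y hy1 hy2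
        have h3 : (q : ℝ) < p + D := hy2.1.trans hy1.2
        have h4 : q < p + D := by exact_mod_cast h3
        refine hQ' p hp (q - p) (Finset.mem_Icc.2 ⟨by omega, by omega⟩) ?_
        have e : p + (q - p) = q := by omega
        rw [e]
        exact hQ q hq
      intro p hp q hq hpq
      rcases lt_or_gt_of_ne hpq with h | h
      · exact key p hp q hq h
      · exact (key q hq p hp h).symm
    · intro p _
      exact measurableSet_Ioo
  refine le_trans (le_of_eq ?_) (measure_mono h1)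
  rw [h2]
  have h3 : ∀ p ∈ Q', volume (Ioo (p : ℝ) (p + D)) = ENNReal.ofReal D := by
    intro p _
    rw [Real.volume_Ioo]
    congr 1
    ring
  rw [Finset.sum_congr rfl h3, Finset.sum_const, nsmul_eq_mul,
    ENNReal.ofReal_mul (Nat.cast_nonneg _), ENNReal.ofReal_natCast]

end Pool.Agent.H749R6.MG
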