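import Mathlib
import Pool.Agent.H749R6.MG.Win

/-! A positive proportion, bounded below independently of the window, of the points of every window
are shortly above a prime. -/

set_option autoImplicit false

namespace Pool.Agent.H749R6.MG

open MeasureTheory Filter Topology Set

theorem theta_close (η : ℝ) (hη : 0 < η) : ∃ Y : ℝ, ∀ y : ℝ, Y ≤ y →
    |Chebyshev.theta y - y| ≤ η * y := by
  have h := Pool.Agent.Helper923.PNT.theta_div_tendsto
  rw [Metric.tendsto_atTop] at h
  obtain ⟨Y, hY⟩ := h η hη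
  refine ⟨max Y 1, fun y hy => ?_⟩
  have h1 := hY y ((le_max_left _ _).trans hy)
  have hy0 : 0 < y := lt_of_lt_of_le one_pos ((le_max_right _ _).trans hy)
  rw [Real.dist_eq] at h1
  have h2 : Chebyshev.theta y - y = (Chebyshev.theta y / y - 1) * y := by field_simp
  rw [h2, abs_mul, abs_of_pos hy0]
  exact mul_le_mul_of_nonneg_right h1.le hy0.le

theorem window (lam : ℝ) (hlam : 0 < lam) : ∃ c₀ : ℝ, 0 < c₀ ∧ ∀ w δ : ℝ, 0 < w → 0 < δ →
    ∀ᶠ T : ℝ in atTop, ENNReal.ofReal (c₀ * (δ * w * T)) ≤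
      volume (Icc (w * T) ((1 + δ) * w * T) ∩ {y | Above (lam * Real.log T) y}) := by
  obtain ⟨C, hC, x₀, hpairs⟩ := pairs_bound
  set ε : ℝ := min lam (1 / (32 * C)) with hε
  have hε0 : 0 < ε := by positivity
  have hε1 : ε ≤ lam := min_le_left _ _
  have hε2 : ε * C ≤ 1 / 32 := by
    have h3 : ε ≤ 1 / (32 * C) := min_le_right _ _
    calc ε * C ≤ 1 / (32 * C) * C := mul_le_mul_of_nonneg_right h3 hC.le
      _ = 1 / 32 := by field_simp
  refine ⟨ε / 64, by positivity, fun w δ hw hδ => ?_⟩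
  have hwδ : 0 < δ * w := by positivity
  obtain ⟨Y, hY⟩ := theta_close (δ / (16 * (2 + δ))) (by positivity)
  have e1 : ∀ᶠ T : ℝ in atTop, 1 ≤ w * T :=
    (tendsto_id.const_mul_atTop hw).eventually_ge_atTop 1
  have e2 : ∀ᶠ T : ℝ in atTop, Y ≤ w * T :=
    (tendsto_id.const_mul_atTop hw).eventually_ge_atTop Y
  have e3 : ∀ᶠ T : ℝ in atTop, max 4 (4 * ((x₀ : ℝ) + 1)) ≤ δ * w * T :=
    (tendsto_id.const_mul_atTop hwδ).eventually_ge_atTop _
  have e4 : ∀ᶠ T : ℝ in atTop, (2 + δ) * w ≤ T := eventually_ge_atTop _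
  have e5 : ∀ᶠ T : ℝ in atTop, (4 / (δ * w)) ^ 2 ≤ T := eventually_ge_atTop _
  have e6 : ∀ᶠ T : ℝ in atTop, 2 / ε ≤ Real.log T :=
    Real.tendsto_log_atTop.eventually_ge_atTop _
  have e7 : ∀ᶠ T : ℝ in atTop, ‖Real.log T‖ ≤ (δ * w / (4 * ε)) * ‖T‖ :=
    Real.isLittleO_log_id_atTop.def (by positivity)
  filter_upwards [e1, e2, e3, e4, e5, e6, e7, eventually_gt_atTop (1 : ℝ)] with
    T h1 h2 h3 h4 h5 h6 h7 h8
  have hT0 : 0 < T := by linarith
  have hl : 0 < Real.log T := Real.log_pos h8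
  have h3a : 4 ≤ δ * w * T := (le_max_left _ _).trans h3
  have h3b : 4 * ((x₀ : ℝ) + 1) ≤ δ * w * T := (le_max_right _ _).trans h3
  set a : ℕ := ⌈w * T⌉₊ with ha
  set x : ℕ := ⌊δ * w * T / 2⌋₊ with hx
  set D : ℕ := ⌊ε * Real.log T⌋₊ with hD
  have ha1 : w * T ≤ a := Nat.le_ceil _
  have ha2 : (a : ℝ) ≤ w * T + 1 := (Nat.ceil_lt_add_one (by positivity)).le
  have hx1 : (x : ℝ) ≤ δ * w * T / 2 := Nat.floor_le (by positivity)
  have hx2 : δ * w * T / 4 ≤ x := by
    have := Nat.lt_floor_add_one (δ * w * T / 2)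
    linarith
  have hD1 : (D : ℝ) ≤ ε * Real.log T := Nat.floor_le (by positivity)
  have hD2 : ε * Real.log T / 2 ≤ D := by
    have h9 := Nat.lt_floor_add_one (ε * Real.log T)
    have h10 : 2 ≤ ε * Real.log T := by
      rw [div_le_iff₀ hε0] at h6
      linarith
    linarith
  have hax : ((a + x : ℕ) : ℝ) = a + x := by push_cast; ring
  have hax1 : ((a + x : ℕ) : ℝ) ≤ (2 + δ) * w * T := by
    rw [hax]
    nlinarith
  have hxpos : (0 : ℝ) < x := by linarith
  -- primes in the window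
  have hcount := prime_count a x (δ / (16 * (2 + δ))) (by positivity) (hY a (h2.trans ha1))
    (hY _ (by rw [hax]; linarith)) (by
      have h9 : 4 * (δ / (16 * (2 + δ))) * ((a + x : ℕ) : ℝ) ≤
          4 * (δ / (16 * (2 + δ))) * ((2 + δ) * w * T) :=
        mul_le_mul_of_nonneg_left hax1 (by positivity)
      have h10 : 4 * (δ / (16 * (2 + δ))) * ((2 + δ) * w * T) = δ * w * T / 4 := by
        field_simp
        norm_num
      linarith) (by
      have h9 : (2 : ℝ) ≤ ((a + x : ℕ) : ℝ) := by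
        rw [hax]
        linarith
      exact_mod_cast h9)
  set Q := (Finset.Ioc a (a + x)).filter Nat.Prime with hQ
  have hlog1 : Real.log ((a + x : ℕ) : ℝ) ≤ 2 * Real.log T := by
    have h9 : ((a + x : ℕ) : ℝ) ≤ T ^ 2 := by
      refine hax1.trans ?_
      rw [sq]
      exact mul_le_mul_of_nonneg_right h4 hT0.le
    have h10 : Real.log ((a + x : ℕ) : ℝ) ≤ Real.log (T ^ 2) :=
      Real.log_le_log (by rw [hax]; linarith) h9
    rw [Real.log_pow] at h10
    exact_mod_cast h10
  have hQ1 : (x : ℝ) / (4 * Real.log T) ≤ Q.card := by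
    rw [div_le_iff₀ (by positivity)]
    have h9 : (Q.card : ℝ) * Real.log ((a + x : ℕ) : ℝ) ≤ Q.card * (2 * Real.log T) :=
      mul_le_mul_of_nonneg_left hlog1 (Nat.cast_nonneg _)
    linarith
  -- pairs
  have hlog2 : Real.log T / 2 ≤ Real.log x := by
    have h9 : √T ≤ x := by
      have h10 : 4 / (δ * w) ≤ √T := Real.le_sqrt_of_sq_le h5
      have h11 : √T * √T = T := Real.mul_self_sqrt hT0.le
      have h12 : √T ≤ δ * w * T / 4 := by
        rw [div_le_iff₀ hwδ] at h10
        have h13 : 0 ≤ √T := Real.sqrt_nonneg _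
        nlinarith
      exact h12.trans hx2
    have h10 := Real.log_le_log (Real.sqrt_pos.2 hT0) h9
    rw [Real.log_sqrt hT0.le] at h10
    exact h10
  have hxx : x₀ ≤ x := by
    have : (x₀ : ℝ) ≤ x := by linarith
    exact_mod_cast this
  have hS := hpairs x hxx a D
  have hS2 : C * D * (x / (Real.log x) ^ 2) ≤ x / (8 * Real.log T) := by
    have h9 : (x : ℝ) / (Real.log x) ^ 2 ≤ x / (Real.log T / 2) ^ 2 := by
      apply div_le_div_of_nonneg_left hxpos.le (by positivity)
      exact pow_le_pow_left₀ (by positivity) hlog2 2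
    have h10 : C * D * (x / (Real.log x) ^ 2) ≤ C * (ε * Real.log T) * (x / (Real.log T / 2) ^ 2) := by
      apply mul_le_mul _ h9 (by positivity) (by positivity)
      exact mul_le_mul_of_nonneg_left hD1 hC.le
    refine h10.trans ?_
    have h11 : C * (ε * Real.log T) * (x / (Real.log T / 2) ^ 2) =
        (ε * C) * (4 * (x / Real.log T)) := by
      field_simp
      norm_num
    rw [h11]
    have h12 : (ε * C) * (4 * (x / Real.log T)) ≤ 1 / 32 * (4 * (x / Real.log T)) :=
      mul_le_mul_of_nonneg_right hε2 (by positivity)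
    refine h12.trans (le_of_eq ?_)
    field_simp
    norm_num
  have hiso := isolated_count a x D _ (hS.trans hS2)
  set Q' := Q.filter (fun p => ∀ h ∈ Finset.Icc 1 D, ¬ (p + h).Prime) with hQ'
  have hQ2 : (x : ℝ) / (8 * Real.log T) ≤ Q'.card := by
    have h9 : (x : ℝ) / (4 * Real.log T) - x / (8 * Real.log T) = x / (8 * Real.log T) := by
      field_simp
      norm_num
    linarith
  have hmeas := isolated_meas Q' D (fun p hp => (Finset.mem_filter.1 (Finset.mem_filter.1 hp).1).2)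
    (fun p hp => (Finset.mem_filter.1 hp).2) (w * T) ((1 + δ) * w * T) (lam * Real.log T)
    (hD1.trans (mul_le_mul_of_nonneg_right hε1 hl.le))
    (fun p hp => by
      have h9 := (Finset.mem_Ioc.1 (Finset.mem_filter.1 (Finset.mem_filter.1 hp).1).1).1
      have h10 : (a : ℝ) ≤ p := by exact_mod_cast h9.le
      linarith)
    (fun p hp => by
      have h9 := (Finset.mem_Ioc.1 (Finset.mem_filter.1 (Finset.mem_filter.1 hp).1).1).2
      have h10 : (p : ℝ) ≤ (a + x : ℕ) := by exact_mod_cast h9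
      rw [hax] at h10
      rw [Real.norm_eq_abs, Real.norm_eq_abs, abs_of_pos hl, abs_of_pos hT0] at h7
      have h11 : ε * Real.log T ≤ δ * w * T / 4 := by
        have h12 := mul_le_mul_of_nonneg_left h7 hε0.le
        have h13 : ε * (δ * w / (4 * ε) * T) = δ * w * T / 4 := by field_simp
        linarith
      have h14 : (1 + δ) * w * T = w * T + δ * w * T := by ring
      rw [h14]
      linarith)
  refine le_trans (ENNReal.ofReal_le_ofReal ?_) hmeas
  have h9 : (x : ℝ) / (8 * Real.log T) * (ε * Real.log T / 2) ≤ Q'.card * D :=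
    mul_le_mul hQ2 hD2 (by positivity) (Nat.cast_nonneg _)
  have h10 : (x : ℝ) / (8 * Real.log T) * (ε * Real.log T / 2) = ε * x / 16 := by
    field_simp
    norm_num
  have h11 : ε * (δ * w * T / 4) ≤ ε * x := mul_le_mul_of_nonneg_left hx2 hε0.le
  linarith

end Pool.Agent.H749R6.MG
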