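import Mathlib
import Pool.Agent.H749R6.MG.Final

/-! Density windows and a second general principle. -/

set_option autoImplicit false

namespace Pool.Agent.H749R6.MG

open MeasureTheory Filter Topology Metric Set

/-- a window which is almost filled by `F` -/
theorem dense_window (F : Set ℝ) (hF : MeasurableSet F) (hF0 : F ⊆ Ioi 0) (hpos : 0 < volume F)
    (η : ℝ) (hη : 0 < η) : ∃ w δ : ℝ, 0 < w ∧ 0 < δ ∧
      volume (Icc w ((1 + δ) * w) \ F) ≤ ENNReal.ofReal (η * (δ * w)) := by
  have hae := IsUnifLocDoublingMeasure.ae_tendsto_measure_inter_div (volume : Measure ℝ) F 1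
  rw [ae_restrict_iff' hF] at hae
  have hex : ∃ x ∈ F, ∀ {ι : Type} {l : Filter ι} (w : ι → ℝ) (δ : ι → ℝ)
      (_ : Tendsto δ l (𝓝[>] 0)) (_ : ∀ᶠ j in l, x ∈ closedBall (w j) (1 * δ j)),
      Tendsto (fun j => volume (F ∩ closedBall (w j) (δ j)) / volume (closedBall (w j) (δ j))) l
        (𝓝 1) := by
    by_contra hcon
    push Not at hcon
    have h0 : volume F = 0 := by
      refine measure_mono_null ?_ hae
      intro x hx h
      obtain ⟨ι, l, w, δ, h1, h2, h3⟩ := hcon x hx
      exact h3 (h hx w δ h1 h2)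
    exact hpos.ne' h0
  obtain ⟨x, hxF, hx⟩ := hex
  have hx0 : 0 < x := hF0 hxF
  have hr : Tendsto (fun n : ℕ => x / 2 * (1 / ((n : ℝ) + 1))) atTop (𝓝[>] 0) := by
    rw [tendsto_nhdsWithin_iff]
    refine ⟨?_, Eventually.of_forall fun n => ?_⟩
    · have := (tendsto_one_div_add_atTop_nhds_zero_nat (𝕜 := ℝ)).const_mul (x / 2)
      rw [mul_zero] at this
      exact this
    · exact mem_Ioi.2 (by positivity)
  have h1 := hx (fun _ : ℕ => x) _ hr (Eventually.of_forall fun n => by
    rw [mem_closedBall, dist_self]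
    positivity)
  have h2 : ∀ᶠ n : ℕ in atTop, ENNReal.ofReal (1 - η) <
      volume (F ∩ closedBall x (x / 2 * (1 / ((n : ℝ) + 1)))) /
        volume (closedBall x (x / 2 * (1 / ((n : ℝ) + 1)))) := by
    apply h1.eventually_const_lt
    rw [← ENNReal.ofReal_one]
    exact (ENNReal.ofReal_lt_ofReal_iff one_pos).2 (by linarith)
  obtain ⟨n, hn⟩ := h2.exists
  set r : ℝ := x / 2 * (1 / ((n : ℝ) + 1)) with hrdef
  have hr0 : 0 < r := by positivity
  have hr1 : r ≤ x / 2 := by
    have h3 : 1 / ((n : ℝ) + 1) ≤ 1 := by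
      rw [div_le_one (by positivity)]
      have : (0 : ℝ) ≤ n := Nat.cast_nonneg n
      linarith
    calc r ≤ x / 2 * 1 := mul_le_mul_of_nonneg_left h3 (by positivity)
      _ = x / 2 := mul_one _
  have hw0 : 0 < x - r := by linarith
  refine ⟨x - r, 2 * r / (x - r), hw0, by positivity, ?_⟩
  have e1 : (1 + 2 * r / (x - r)) * (x - r) = x + r := by
    field_simp
    ring
  have e2 : 2 * r / (x - r) * (x - r) = 2 * r := by field_simp
  rw [e1, e2, ← Real.closedBall_eq_Icc]
  rw [Real.volume_closedBall] at hn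
  have h3 : volume (closedBall x r) ≤ volume (F ∩ closedBall x r) + volume (closedBall x r \ F) := by
    refine le_trans (measure_mono ?_) (measure_union_le _ _)
    intro y hy
    by_cases h : y ∈ F
    · exact Or.inl ⟨h, hy⟩
    · exact Or.inr ⟨hy, h⟩
  have h4 : volume (closedBall x r \ F) = volume (closedBall x r) - volume (F ∩ closedBall x r) := by
    rw [← measure_inter_add_sdiff (closedBall x r) hF, inter_comm]
    rw [ENNReal.add_sub_cancel_left]
    refine ne_top_of_le_ne_top ?_ (measure_mono inter_subset_right)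
    rw [Real.volume_closedBall]
    exact ENNReal.ofReal_ne_top
  rw [h4, Real.volume_closedBall, tsub_le_iff_right]
  rcases le_or_gt (1 - η) 0 with h5 | h5
  · refine le_trans (ENNReal.ofReal_le_ofReal ?_) le_self_add
    nlinarith
  · have h6 := (ENNReal.lt_div_iff_mul_lt (Or.inl (by simp [hr0]))
      (Or.inl ENNReal.ofReal_ne_top)).1 hn
    rw [← ENNReal.ofReal_mul h5.le] at h6
    have h7 : ENNReal.ofReal (2 * r) =
        ENNReal.ofReal (η * (2 * r)) + ENNReal.ofReal ((1 - η) * (2 * r)) := by
      rw [← ENNReal.ofReal_add (by positivity) (by positivity)]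
      congr 1
      ring
    rw [h7]
    exact add_le_add le_rfl h6.le

/-- windows to sets of positive measure -/
theorem F_of_window (E : ℕ → Set ℝ) (c₀ : ℝ) (hc₀ : 0 < c₀)
    (hW : ∀ w δ : ℝ, 0 < w → 0 < δ → ∀ᶠ n in atTop,
      ENNReal.ofReal (c₀ * (δ * w)) ≤ volume (Icc w ((1 + δ) * w) ∩ E n))
    (F : Set ℝ) (hF : MeasurableSet F) (hF0 : F ⊆ Ioi 0) (hpos : 0 < volume F) :
    ∃ w δ : ℝ, 0 < w ∧ 0 < δ ∧ ∀ᶠ n in atTop,
      ENNReal.ofReal (3 / 4 * c₀ * (δ * w)) ≤ volume (F ∩ Icc w ((1 + δ) * w) ∩ E n) := by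
  obtain ⟨w, δ, hw, hδ, h⟩ := dense_window F hF hF0 hpos (c₀ / 4) (by positivity)
  refine ⟨w, δ, hw, hδ, ?_⟩
  filter_upwards [hW w δ hw hδ] with n hn
  have h1 : volume (Icc w ((1 + δ) * w) ∩ E n) ≤
      volume (F ∩ Icc w ((1 + δ) * w) ∩ E n) + volume (Icc w ((1 + δ) * w) \ F) := by
    refine le_trans (measure_mono ?_) (measure_union_le _ _)
    rintro y ⟨hy1, hy2⟩
    by_cases hy : y ∈ F
    · exact Or.inl ⟨⟨hy, hy1⟩, hy2⟩
    · exact Or.inr ⟨hy1, hy⟩
  have h2 := (hn.trans h1).trans (add_le_add le_rfl h)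
  have h3 : ENNReal.ofReal (c₀ * (δ * w)) = ENNReal.ofReal (3 / 4 * c₀ * (δ * w)) +
      ENNReal.ofReal (c₀ / 4 * (δ * w)) := by
    rw [← ENNReal.ofReal_add (by positivity) (by positivity)]
    congr 1
    ring
  rw [h3] at h2
  exact (ENNReal.add_le_add_iff_right ENNReal.ofReal_ne_top).1 h2

/-- upper density bounded below by a constant -/
theorem upper_density_const (E : ℕ → Set ℝ) (hE : ∀ n, MeasurableSet (E n)) (c₀ : ℝ) (hc₀ : 0 < c₀)
    (hW : ∀ w δ : ℝ, 0 < w → 0 < δ → ∀ᶠ n in atTop,
      ENNReal.ofReal (c₀ * (δ * w)) ≤ volume (Icc w ((1 + δ) * w) ∩ E n)) :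
    ∀ᵐ x : ℝ, 0 < x → ∃ᶠ N in atTop, c₀ / 2 ≤ av E N x := by
  set Z : Set ℝ := Ioi 0 ∩ {x | Tendsto (fun N => max (av E N x - c₀ / 2) 0) atTop (𝓝 0)} with hZ
  have hm : ∀ N, Measurable fun x => max (av E N x - c₀ / 2) 0 := fun N =>
    ((av_meas E hE N).sub_const _).max measurable_const
  have hZm : MeasurableSet Z :=
    measurableSet_Ioi.inter (measurableSet_tendsto (𝓝 0) hm)
  have key : volume Z = 0 := by
    by_contra hne
    obtain ⟨w, δ, hw, hδ, hev⟩ := F_of_window E c₀ hc₀ hW Z hZm inter_subset_left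
      (pos_iff_ne_zero.2 hne)
    set W : Set ℝ := Icc w ((1 + δ) * w) with hWdef
    set F : Set ℝ := Z ∩ W with hF
    have hFm : MeasurableSet F := hZm.inter measurableSet_Icc
    have hvolF : volume F ≤ ENNReal.ofReal (δ * w) := by
      refine (measure_mono inter_subset_right).trans ?_
      rw [hWdef, Real.volume_Icc]
      apply ENNReal.ofReal_le_ofReal
      linarith
    have hfin : volume F ≠ ⊤ := ne_top_of_le_ne_top ENNReal.ofReal_ne_top hvolF
    have hfm : IsFiniteMeasure (volume.restrict F) := ⟨by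
      rw [Measure.restrict_apply_univ]
      exact lt_top_iff_ne_top.2 hfin⟩
    have hlim : Tendsto (fun N => ∫ x in F, max (av E N x - c₀ / 2) 0) atTop
        (𝓝 (∫ x in F, (0 : ℝ))) := by
      refine tendsto_integral_of_dominated_convergence (fun _ => (1 : ℝ))
        (fun N => (hm N).aestronglyMeasurable) (integrable_const _) ?_ ?_
      · intro N
        refine Eventually.of_forall fun x => ?_
        rw [Real.norm_eq_abs, abs_of_nonneg (le_max_right _ _)]
        apply max_le _ zero_le_one
        have := av_le E N x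
        linarith
      · rw [ae_restrict_iff' hFm]
        exact Eventually.of_forall fun x hx => hx.1.2
    rw [integral_zero] at hlim
    have hval : ∀ N : ℕ, ∫ x in F, av E N x =
        (∑ n ∈ Finset.range N, (volume (F ∩ E n)).toReal) / N := by
      intro N
      unfold av
      rw [integral_div, integral_finsetSum]
      · congr 1
        refine Finset.sum_congr rfl fun n _ => ?_
        rw [integral_indicator (hE n), setIntegral_const, smul_eq_mul, mul_one, measureReal_def,
          Measure.restrict_apply (hE n), inter_comm]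
      · intro n _
        exact (integrable_const (1 : ℝ)).indicator (hE n)
    have hint : ∀ N, Integrable (fun x => max (av E N x - c₀ / 2) 0) (volume.restrict F) := by
      intro N
      refine Integrable.mono' (integrable_const (1 : ℝ)) (hm N).aestronglyMeasurable ?_
      refine Eventually.of_forall fun x => ?_
      rw [Real.norm_eq_abs, abs_of_nonneg (le_max_right _ _)]
      apply max_le _ zero_le_one
      have := av_le E N x
      linarith
    have hup : ∀ N : ℕ, ∫ x in F, av E N x ≤
        c₀ / 2 * (δ * w) + ∫ x in F, max (av E N x - c₀ / 2) 0 := by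
      intro N
      have h1 : ∫ x in F, av E N x ≤ ∫ x in F, (c₀ / 2 + max (av E N x - c₀ / 2) 0) := by
        apply integral_mono
        · refine Integrable.mono' (integrable_const (1 : ℝ)) (av_meas E hE N).aestronglyMeasurable ?_
          refine Eventually.of_forall fun x => ?_
          rw [Real.norm_eq_abs, abs_of_nonneg (av_nonneg E N x)]
          exact av_le E N x
        · exact (integrable_const _).add (hint N)
        · intro x
          have := le_max_left (av E N x - c₀ / 2) 0
          simp only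
          linarith
      rw [integral_add (integrable_const _) (hint N), setIntegral_const, smul_eq_mul] at h1
      have h2 : volume.real F ≤ δ * w := by
        rw [measureReal_def]
        exact ENNReal.toReal_le_of_le_ofReal (by positivity) hvolF
      have h3 : volume.real F * (c₀ / 2) ≤ c₀ / 2 * (δ * w) := by
        rw [mul_comm]
        exact mul_le_mul_of_nonneg_left h2 (by positivity)
      linarith
    obtain ⟨n₀, hn₀⟩ := eventually_atTop.1 hev
    have hcw : 0 < c₀ * (δ * w) := by positivity
    have hsmall := hlim.eventually_lt_const (u := c₀ * (δ * w) / 16) (by positivity)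
    obtain ⟨N, hN1, hN2⟩ := (hsmall.and (eventually_ge_atTop (8 * n₀ + 1))).exists
    have hN0 : (0 : ℝ) < N := by
      have : 0 < N := by omega
      exact_mod_cast this
    have hlow : ((N : ℝ) - n₀) * (3 / 4 * c₀ * (δ * w)) ≤
        ∑ n ∈ Finset.range N, (volume (F ∩ E n)).toReal := by
      have h1 : ∑ n ∈ Finset.Ico n₀ N, (3 / 4 * c₀ * (δ * w)) ≤
          ∑ n ∈ Finset.Ico n₀ N, (volume (F ∩ E n)).toReal := by
        refine Finset.sum_le_sum fun n hn => ?_
        rw [Finset.mem_Ico] at hn
        have := hn₀ n hn.1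
        exact (ENNReal.ofReal_le_iff_le_toReal
          (ne_top_of_le_ne_top hfin (measure_mono inter_subset_left))).1 this
      have h2 : ∑ n ∈ Finset.Ico n₀ N, (volume (F ∩ E n)).toReal ≤
          ∑ n ∈ Finset.range N, (volume (F ∩ E n)).toReal := by
        apply Finset.sum_le_sum_of_subset_of_nonneg
        · intro n hn
          rw [Finset.mem_Ico] at hn
          exact Finset.mem_range.2 hn.2
        · intro _ _ _
          exact ENNReal.toReal_nonneg
      rw [Finset.sum_const, Nat.card_Ico, nsmul_eq_mul, Nat.cast_sub (by omega)] at h1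
      exact h1.trans h2
    have h5 := hup N
    rw [hval, div_le_iff₀ hN0] at h5
    have hN3 : (8 * n₀ + 1 : ℝ) ≤ N := by exact_mod_cast hN2
    have h6 : c₀ / 2 * (δ * w) + ∫ x in F, max (av E N x - c₀ / 2) 0 ≤ 9 / 16 * (c₀ * (δ * w)) := by
      linarith
    have h7 := hlow.trans (h5.trans (mul_le_mul_of_nonneg_right h6 hN0.le))
    nlinarith
  have h8 : ∀ᵐ x : ℝ, x ∉ Z := by
    rw [ae_iff]
    simpa using key
  filter_upwards [h8] with x hx hx0
  by_contra hcon
  rw [not_frequently] at hcon
  apply hx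
  refine ⟨hx0, ?_⟩
  show Tendsto _ _ _
  refine tendsto_const_nhds.congr' ?_
  filter_upwards [hcon] with N hN
  rw [max_eq_right]
  linarith [not_le.1 hN]

end Pool.Agent.H749R6.MG
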