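import Mathlib
import Pool.Agent.H749R6.MG.Dens
import Pool.Agent.H749R6.MG.Win2

/-! Primes shortly below the dilates of almost every `x`. -/

set_option autoImplicit false

namespace Pool.Agent.H749R6.MG

open MeasureTheory Filter Topology Metric Set

theorem above_meas (r T : ℝ) : MeasurableSet {x : ℝ | Above r (T * x)} := by
  have : {x : ℝ | Above r (T * x)} = ⋃ p : ℕ, ⋃ _ : p.Prime,
      ({x : ℝ | T * x - r < p} ∩ {x : ℝ | (p : ℝ) < T * x}) := by
    ext x
    simp only [mem_iUnion, exists_prop]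
    rfl
  rw [this]
  refine MeasurableSet.iUnion fun p => MeasurableSet.iUnion fun _ => MeasurableSet.inter ?_ ?_
  · exact measurableSet_lt (f := fun x : ℝ => T * x - r) (g := fun _ : ℝ => (p : ℝ))
      (by fun_prop) measurable_const
  · exact measurableSet_lt (f := fun _ : ℝ => (p : ℝ)) (g := fun x : ℝ => T * x)
      measurable_const (by fun_prop)

theorem window_scaled (lam : ℝ) (hlam : 0 < lam) : ∃ c₀ : ℝ, 0 < c₀ ∧ ∀ t : ℕ → ℝ,
    Tendsto t atTop atTop → ∀ w δ : ℝ, 0 < w → 0 < δ → ∀ᶠ n in atTop,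
      ENNReal.ofReal (c₀ * (δ * w)) ≤
        volume (Icc w ((1 + δ) * w) ∩ {x | Above (lam * Real.log (t n)) (t n * x)}) := by
  obtain ⟨c₀, hc₀, h⟩ := window lam hlam
  refine ⟨c₀, hc₀, fun t ht w δ hw hδ => ?_⟩
  filter_upwards [ht.eventually (h w δ hw hδ), ht.eventually_gt_atTop 0] with n hn hT0
  set T := t n
  have h1 : Icc w ((1 + δ) * w) ∩ {x | Above (lam * Real.log T) (T * x)} =
      (fun x => T * x) ⁻¹' (Icc (w * T) ((1 + δ) * w * T) ∩ {y | Above (lam * Real.log T) y}) := by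
    ext x
    simp only [mem_inter_iff, mem_Icc, mem_preimage]
    refine and_congr (and_congr ?_ ?_) Iff.rfl
    · rw [mul_comm T x]
      exact (mul_le_mul_iff_of_pos_right hT0).symm
    · rw [mul_comm T x]
      exact (mul_le_mul_iff_of_pos_right hT0).symm
  rw [h1, Real.volume_preimage_mul_left hT0.ne', abs_of_pos (inv_pos.2 hT0)]
  have h2 : c₀ * (δ * w) = T⁻¹ * (c₀ * (δ * w * T)) := by field_simp
  rw [h2, ENNReal.ofReal_mul (inv_pos.2 hT0).le]
  gcongr

theorem above_main (lam : ℝ) (hlam : 0 < lam) : ∃ c : ℝ, 0 < c ∧ ∀ t : ℕ → ℝ,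
    Tendsto t atTop atTop → ∀ᵐ x : ℝ, 0 < x → ∃ᶠ N : ℕ in atTop, c * N ≤
      ({n : ℕ | n < N ∧ ∃ p : ℕ, p.Prime ∧ t n * x - lam * Real.log (t n) < p ∧
        (p : ℝ) < t n * x}.ncard : ℝ) := by
  classical
  obtain ⟨c₀, hc₀, h⟩ := window_scaled lam hlam
  refine ⟨c₀ / 2, by positivity, fun t ht => ?_⟩
  filter_upwards [upper_density_const _ (fun n => above_meas (lam * Real.log (t n)) (t n)) c₀ hc₀
    (h t ht)] with x hx hx0
  refine ((hx hx0).and_eventually (eventually_gt_atTop 0)).mono ?_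
  rintro N ⟨h1, h2⟩
  have hN : (0 : ℝ) < N := by exact_mod_cast h2
  unfold av at h1
  rw [le_div_iff₀ hN] at h1
  refine h1.trans (le_of_eq ?_)
  have h3 : {n : ℕ | n < N ∧ ∃ p : ℕ, p.Prime ∧ t n * x - lam * Real.log (t n) < p ∧
      (p : ℝ) < t n * x} =
      (((Finset.range N).filter (fun n => Above (lam * Real.log (t n)) (t n * x)) : Finset ℕ) :
        Set ℕ) := by
    ext n
    rw [Finset.mem_coe, Finset.mem_filter, Finset.mem_range]
    rfl
  rw [h3, Set.ncard_coe_finset, Finset.card_filter]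
  push_cast
  refine Finset.sum_congr rfl fun n _ => ?_
  by_cases hf : Above (lam * Real.log (t n)) (t n * x)
  · rw [if_pos hf]
    exact indicator_of_mem (s := {x | Above (lam * Real.log (t n)) (t n * x)}) hf _
  · rw [if_neg hf]
    exact indicator_of_notMem (s := {x | Above (lam * Real.log (t n)) (t n * x)}) hf _

end Pool.Agent.H749R6.MG
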