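import Mathlib
import Pool.Agent.H749R6.MG.Ab
import Pool.Agent.H749R6.MG.Bl

/-! The distance from the dilates of almost every `x` to the primes, divided by the logarithm, visits
every interval. -/

set_option autoImplicit false

namespace Pool.Agent.H749R6.MG

open MeasureTheory Filter Topology Metric Set

/-- the distance from `y` to the nearest prime is between `r` and `R` -/
def Bet (r R y : ℝ) : Prop := Far r y ∧ ∃ p : ℕ, p.Prime ∧ |y - p| < R

theorem geomT2 (u v C T L a b : ℝ) (K : ℕ) (ha : 0 ≤ a) (hab : a < b) (hCb : C = b + 1)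
    (huT : 4 ≤ u * T)
    (hT1 : 1 ≤ T) (huv : u ≤ v)
    (hlog1 : 3 / 4 * Real.log T ≤ Real.log (u * T / 2))
    (hlog2 : Real.log (2 * (v * T)) ≤ 2 * Real.log T)
    (hK : K * (8 * C * Real.log (2 * (v * T))) ≤ v * T)
    (hL : L = 16 * C * K + 3 * C) (hlogT : 0 < Real.log T) :
    ∀ y : ℝ, u * T ≤ y → y ≤ v * T → ∀ k : ℕ, P k ≤ y → y < P (k + 1) →
      ¬ Far (C * Real.log T) y →
      (∃ i < K, 8 * C * Real.log (P (k + i)) < P (k + i + 1) - P (k + i)) →
      ∃ z, |z - y| ≤ L * Real.log T ∧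
        ∀ w, |w - z| < (b - a) / 2 * Real.log T → Bet (a * Real.log T) (b * Real.log T) w := by
  intro y hy1 hy2 k hk1 hk2 hnf hex
  classical
  have hC : 0 < C := by linarith
  have hCl : 0 < C * Real.log T := mul_pos hC hlogT
  have hal : 0 ≤ a * Real.log T := by positivity
  have habl : a * Real.log T < b * Real.log T := mul_lt_mul_of_pos_right hab hlogT
  have hbC : b * Real.log T ≤ C * Real.log T :=
    mul_le_mul_of_nonneg_right (by linarith) hlogT.le
  have hhalf : (b - a) / 2 * Real.log T = (b * Real.log T - a * Real.log T) / 2 := by ring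
  set A := a * Real.log T with hA
  set B := b * Real.log T with hB
  -- the gap is at least `6 C log T`
  have hgap : ∀ m : ℕ, u * T / 2 ≤ P m → 8 * C * Real.log (P m) < P (m + 1) - P m →
      6 * (C * Real.log T) < P (m + 1) - P m := by
    intro m hm hg
    have h1 : Real.log (u * T / 2) ≤ Real.log (P m) := Real.log_le_log (by linarith) hm
    have h2 : 3 / 4 * Real.log T ≤ Real.log (P m) := hlog1.trans h1
    have h3 : 8 * C * (3 / 4 * Real.log T) ≤ 8 * C * Real.log (P m) :=
      mul_le_mul_of_nonneg_left h2 (by positivity)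
    linarith
  -- the points of the left part and of the right part of a large gap
  have hleft : ∀ m : ℕ, 6 * (C * Real.log T) < P (m + 1) - P m → ∀ w,
      |w - (P m + (A + B) / 2)| < (b - a) / 2 * Real.log T → Bet A B w := by
    intro m hg w hw
    rw [hhalf, abs_lt] at hw
    refine ⟨far_of_gap m _ _ (by linarith [hw.1]) (by linarith [hw.2]), _, prime_nth m, ?_⟩
    rw [abs_lt]
    constructor <;> linarith [hw.1, hw.2]
  have hright : ∀ m : ℕ, 6 * (C * Real.log T) < P (m + 1) - P m → ∀ w,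
      |w - (P (m + 1) - (A + B) / 2)| < (b - a) / 2 * Real.log T → Bet A B w := by
    intro m hg w hw
    rw [hhalf, abs_lt] at hw
    refine ⟨far_of_gap m _ _ (by linarith [hw.1]) (by linarith [hw.2]), _, prime_nth (m + 1), ?_⟩
    rw [abs_lt]
    constructor <;> linarith [hw.1, hw.2]
  have hi := Nat.find_spec hex
  set i := Nat.find hex with hidef
  obtain ⟨hiK, hig⟩ := hi
  have hmin : ∀ j < i, P (k + j + 1) - P (k + j) ≤ 8 * C * Real.log (P (k + j)) := by
    intro j hj
    have := Nat.find_min hex hj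
    push Not at this
    exact this (by omega)
  have hL0 : 3 * (C * Real.log T) ≤ L * Real.log T := by
    rw [hL]
    have : (0 : ℝ) ≤ 16 * C * K * Real.log T := by positivity
    linarith
  have hPk : u * T / 2 ≤ P k := by
    have := bertrand k
    linarith
  rcases Nat.eq_zero_or_pos i with h0 | h0
  · -- the gap containing y is large
    rw [h0] at hig
    simp only [add_zero] at hig
    have hg := hgap k hPk hig
    rcases near_end k _ y hk1 hk2 hnf with hn | hn
    · refine ⟨P k + (A + B) / 2, ?_, hleft k hg⟩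
      rw [abs_le]
      constructor <;> linarith
    · refine ⟨P (k + 1) - (A + B) / 2, ?_, hright k hg⟩
      rw [abs_le]
      constructor <;> linarith
  · -- a later gap is large
    have hPi : y < P (k + i) := hk2.trans_le (P_mono (by omega))
    have hg := hgap (k + i) (by linarith) hig
    have hvT : 1 ≤ 2 * (v * T) := by
      have : u * T ≤ v * T := mul_le_mul_of_nonneg_right huv (by linarith)
      linarith
    have hw := walk v T C K hC hvT hK k (hk1.trans hy2) i hiK.le hmin
    have h1 : (i : ℝ) * (8 * C * Real.log (2 * (v * T))) ≤ 16 * C * K * Real.log T := by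
      have h2 : 8 * C * Real.log (2 * (v * T)) ≤ 16 * C * Real.log T := by
        have := mul_le_mul_of_nonneg_left hlog2 (by positivity : (0 : ℝ) ≤ 8 * C)
        linarith
      have h3 : (i : ℝ) * (8 * C * Real.log (2 * (v * T))) ≤ i * (16 * C * Real.log T) :=
        mul_le_mul_of_nonneg_left h2 (by positivity)
      have h4 : (i : ℝ) * (16 * C * Real.log T) ≤ K * (16 * C * Real.log T) := by
        apply mul_le_mul_of_nonneg_right
        · exact_mod_cast hiK.le
        · positivity
      linarith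
    refine ⟨P (k + i) + (A + B) / 2, ?_, hleft (k + i) hg⟩
    rw [abs_le]
    constructor
    · have : 0 ≤ L * Real.log T := by linarith
      linarith
    · have h5 : L * Real.log T = 16 * C * K * Real.log T + 3 * (C * Real.log T) := by
        rw [hL]
        ring
      rw [h5]
      linarith

theorem geom2 (u v a b : ℝ) (hu : 0 < u) (huv : u ≤ v) (ha : 0 ≤ a) (hab : a < b) (K : ℕ) :
    ∃ L : ℝ, 0 < L ∧ ∀ᶠ T : ℝ in atTop, ∀ y : ℝ, u * T ≤ y → y ≤ v * T →
      ∀ k : ℕ, P k ≤ y → y < P (k + 1) → ¬ Far ((b + 1) * Real.log T) y →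
      (∃ i < K, 8 * (b + 1) * Real.log (P (k + i)) < P (k + i + 1) - P (k + i)) →
      ∃ z, |z - y| ≤ L * Real.log T ∧
        ∀ w, |w - z| < (b - a) / 2 * Real.log T → Bet (a * Real.log T) (b * Real.log T) w := by
  have hv : 0 < v := hu.trans_le huv
  have hb : 0 < b := by linarith
  obtain ⟨C, hCdef⟩ : ∃ C, C = b + 1 := ⟨_, rfl⟩
  rw [← hCdef]
  have hC : 0 < C := by linarith
  refine ⟨16 * C * K + 3 * C, by positivity, ?_⟩
  have e1 : ∀ᶠ T : ℝ in atTop, 4 ≤ u * T :=
    (tendsto_id.const_mul_atTop hu).eventually_ge_atTop 4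
  have e2 : ∀ᶠ T : ℝ in atTop, -Real.log (u / 2) ≤ 1 / 4 * Real.log T :=
    (Real.tendsto_log_atTop.const_mul_atTop (by norm_num)).eventually_ge_atTop _
  have e3 : ∀ᶠ T : ℝ in atTop, Real.log (2 * v) ≤ Real.log T :=
    Real.tendsto_log_atTop.eventually_ge_atTop _
  have e4 : ∀ᶠ T : ℝ in atTop, ‖Real.log T‖ ≤ (v / (K * (8 * C * 2) + 1)) * ‖T‖ := by
    have := Real.isLittleO_log_id_atTop
    exact this.def (by positivity)
  filter_upwards [e1, e2, e3, e4, eventually_gt_atTop (1 : ℝ)] with T h1 h2 h3 h4 h5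
  have hT0 : (0 : ℝ) < T := by linarith
  have hlogT : 0 < Real.log T := Real.log_pos h5
  have hl2 : Real.log (2 * (v * T)) ≤ 2 * Real.log T := by
    have : 2 * (v * T) = (2 * v) * T := by ring
    rw [this, Real.log_mul (by positivity) (by positivity)]
    linarith
  refine geomT2 u v C T _ a b K ha hab hCdef h1 h5.le huv ?_ hl2 ?_ rfl hlogT
  · have : u * T / 2 = (u / 2) * T := by ring
    rw [this, Real.log_mul (by positivity) (by positivity)]
    linarith
  · rw [Real.norm_eq_abs, Real.norm_eq_abs, abs_of_pos hlogT, abs_of_pos hT0] at h4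
    have h6 : (K : ℝ) * (8 * C * Real.log (2 * (v * T))) ≤ K * (8 * C * (2 * Real.log T)) := by
      apply mul_le_mul_of_nonneg_left _ (by positivity)
      exact mul_le_mul_of_nonneg_left hl2 (by positivity)
    have h7 : (K : ℝ) * (8 * C * (2 * Real.log T)) = (K * (8 * C * 2)) * Real.log T := by ring
    rw [h7] at h6
    refine h6.trans ?_
    have hA : (0 : ℝ) ≤ K * (8 * C * 2) := by positivity
    have h8 : (K * (8 * C * 2) : ℝ) * Real.log T ≤
        (K * (8 * C * 2)) * ((v / (K * (8 * C * 2) + 1)) * T) :=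
      mul_le_mul_of_nonneg_left h4 hA
    refine h8.trans ?_
    have h9 : (K * (8 * C * 2) : ℝ) * ((v / (K * (8 * C * 2) + 1)) * T) =
        ((K * (8 * C * 2)) / (K * (8 * C * 2) + 1)) * (v * T) := by
      field_simp
    rw [h9]
    have h10 : (K * (8 * C * 2) : ℝ) / (K * (8 * C * 2) + 1) ≤ 1 := by
      rw [div_le_one (by positivity)]
      linarith
    have h11 : 0 ≤ v * T := by positivity
    nlinarith

theorem bet_meas (r R T : ℝ) : MeasurableSet {x : ℝ | Bet r R (T * x)} := by
  have : {x : ℝ | Bet r R (T * x)} = {x : ℝ | Far r (T * x)} ∩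
      ⋃ p : ℕ, ⋃ _ : p.Prime, {x : ℝ | |T * x - p| < R} := by
    ext x
    simp only [mem_inter_iff, mem_iUnion, exists_prop]
    rfl
  rw [this]
  refine (far_meas r T).inter (MeasurableSet.iUnion fun p => MeasurableSet.iUnion fun _ => ?_)
  exact measurableSet_lt (f := fun x : ℝ => |T * x - p|) (g := fun _ : ℝ => R)
    (by fun_prop) measurable_const

theorem scale2 (z T s r w : ℝ) (hT : 0 < T) (hs : s * T = r)
    (hw : w ∈ Ioo (z / T - s) (z / T + s)) : |T * w - z| < r := by
  rw [← hs]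
  exact scale z T s w hT hw

theorem lemC (hB : Blocks) (t : ℕ → ℝ) (ht : Tendsto t atTop atTop) (a b : ℝ) (ha : 0 ≤ a)
    (hab : a < b) (F : Set ℝ) (hF : MeasurableSet F) (hF0 : F ⊆ Ioi 0)
    (hpos : 0 < volume F) : ∃ c' : ℝ, 0 < c' ∧ ∀ᶠ n in atTop,
      ENNReal.ofReal c' ≤
        volume (F ∩ {x | Bet (a * Real.log (t n)) (b * Real.log (t n)) (t n * x)}) := by
  classical
  obtain ⟨c₀, hc₀, hwin⟩ := window_scaled 1 one_pos
  obtain ⟨w₀, δ₀, hw₀, hδ₀, hev⟩ := F_of_window _ c₀ hc₀ (hwin t ht) F hF hF0 hpos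
  obtain ⟨C, hCdef⟩ : ∃ C, C = b + 1 := ⟨_, rfl⟩
  have hC : 0 < C := by linarith
  have hba : 0 < b - a := by linarith
  set u : ℝ := w₀ with hu'
  set v : ℝ := (1 + δ₀) * w₀ with hv'
  have hu : 0 < u := hw₀
  have huv : u ≤ v := by
    rw [hu', hv']
    nlinarith
  have hv : 0 < v := hu.trans_le huv
  set F1 : Set ℝ := F ∩ Icc u v with hF1
  have hF1m : MeasurableSet F1 := hF.inter measurableSet_Icc
  have hfin : volume F1 ≠ ⊤ := by
    refine ne_top_of_le_ne_top ?_ (measure_mono inter_subset_right)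
    rw [Real.volume_Icc]
    exact ENNReal.ofReal_ne_top
  set μ : ℝ := 3 / 4 * c₀ * (δ₀ * w₀) with hμ
  have hμ0 : 0 < μ := by positivity
  obtain ⟨K, x₀, hK⟩ := hB (8 * C) (μ / (128 * v * C)) (by positivity)
  obtain ⟨L, hL0, hL⟩ := geom2 u v a b hu huv ha hab K
  rw [← hCdef] at hL
  set s₀ : ℝ := (b - a) / 2 with hs₀
  have hs₀0 : 0 < s₀ := by positivity
  set L' : ℝ := L + s₀ with hL'
  have hL'0 : 0 < L' := by positivity
  set κ : ℝ := s₀ / (2 * L') with hκ
  have hκ0 : 0 < κ := by positivity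
  set ρ : ℕ → ℝ := fun n => L' * (Real.log (t n) / t n) with hρ
  have hlogdiv : Tendsto (fun T : ℝ => Real.log T / T) atTop (𝓝[>] 0) := by
    rw [tendsto_nhdsWithin_iff]
    refine ⟨?_, ?_⟩
    · have := Real.isLittleO_log_id_atTop.tendsto_div_nhds_zero
      exact this
    · filter_upwards [eventually_gt_atTop (1 : ℝ)] with T hT
      exact div_pos (Real.log_pos hT) (by linarith)
  have hρlim : Tendsto ρ atTop (𝓝[>] 0) := by
    have h1 := (hlogdiv.comp ht)
    rw [tendsto_nhdsWithin_iff] at h1 ⊢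
    refine ⟨?_, ?_⟩
    · have := h1.1.const_mul L'
      rw [mul_zero] at this
      exact this
    · filter_upwards [h1.2] with n hn
      exact mul_pos hL'0 hn
  have hdens := density_meas F1 hF1m hfin ρ hρlim κ hκ0
  have hdens' := hdens.eventually_le_const (u := ENNReal.ofReal (μ / 8))
    (ENNReal.ofReal_pos.2 (by positivity))
  refine ⟨(μ / 2) * κ, by positivity, ?_⟩
  filter_upwards [hdens', ht.eventually hL, ht.eventually (count_bound v hv),
    ((count_tendsto v hv).comp ht).eventually_ge_atTop x₀, ht.eventually_gt_atTop 1,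
    ht.eventually_ge_atTop (2 / u), hev] with n h1 h2 h3 h4 h5 h6 h7
  set T : ℝ := t n with hTdef
  have hT0 : 0 < T := by linarith
  have hlT : 0 < Real.log T := Real.log_pos h5
  set A : Set ℝ := F1 ∩ {x | Bet (a * Real.log T) (b * Real.log T) (T * x)} with hA
  have hAm : MeasurableSet A := hF1m.inter (bet_meas _ _ _)
  set X : ℕ := Nat.primeCounting ⌊v * T⌋₊ with hX
  set B : Finset ℕ := (Finset.range X).filter (fun k : ℕ => ∀ i < K,
    P (k + i + 1) - P (k + i) ≤ 8 * C * Real.log (P (k + i))) with hBdef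
  have hBcard : (B.card : ℝ) ≤ μ / (128 * v * C) * X := hK X h4
  set S2 : Set ℝ := {x : ℝ | ¬ Far (C * Real.log T) (T * x) ∧
    ∃ k ∈ B, P k ≤ T * x ∧ T * x < P (k + 1)} with hS2
  have hS2m : volume S2 ≤ ENNReal.ofReal (μ / 8) := by
    refine (bad_meas T (C * Real.log T) hT0 B).trans (ENNReal.ofReal_le_ofReal ?_)
    have h7 : (B.card : ℝ) ≤ μ / (128 * v * C) * (8 * v * (T / Real.log T)) :=
      hBcard.trans (mul_le_mul_of_nonneg_left h3 (by positivity))
    have h8 : (B.card : ℝ) * (2 * (C * Real.log T / T)) ≤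
        μ / (128 * v * C) * (8 * v * (T / Real.log T)) * (2 * (C * Real.log T / T)) :=
      mul_le_mul_of_nonneg_right h7 (by positivity)
    refine h8.trans (le_of_eq ?_)
    field_simp
    norm_num
  set s : ℝ := s₀ * (Real.log T / T) with hs
  have hs0 : 0 < s := by positivity
  set G : Set ℝ := {x : ℝ | ENNReal.ofReal s ≤ volume (A ∩ closedBall x (ρ n))} with hG
  have hρn : ρ n = L' * (Real.log T / T) := rfl
  have hcov : F1 ∩ {x | Above (1 * Real.log T) (T * x)} ⊆ S2 ∪ ({x | x ∈ F1 ∧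
      volume (F1 ∩ closedBall x (ρ n)) < ENNReal.ofReal ((1 - κ) * (2 * ρ n))} ∪ G) := by
    rintro x ⟨hx, p, hp, hxp1, hxp2⟩
    have hfar : ¬ Far (C * Real.log T) (T * x) := by
      intro hf
      have h8 := hf p hp
      rw [abs_of_pos (by linarith)] at h8
      have h9 : 1 * Real.log T ≤ C * Real.log T :=
        mul_le_mul_of_nonneg_right (by linarith) hlT.le
      linarith
    obtain ⟨hx1, hx2⟩ := hx.2
    have hy1 : u * T ≤ T * x := by
      rw [mul_comm]
      exact mul_le_mul_of_nonneg_left hx1 hT0.le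
    have hy2 : T * x ≤ v * T := by
      rw [mul_comm v]
      exact mul_le_mul_of_nonneg_left hx2 hT0.le
    have hy3 : 2 ≤ T * x := by
      have : 2 ≤ u * T := by
        rw [div_le_iff₀ hu] at h6
        linarith
      linarith
    obtain ⟨k, hk1, hk2⟩ := exists_idx (T * x) hy3
    by_cases hkB : k ∈ B
    · exact Or.inl ⟨hfar, k, hkB, hk1, hk2⟩
    right
    by_cases hd : volume (F1 ∩ closedBall x (ρ n)) < ENNReal.ofReal ((1 - κ) * (2 * ρ n))
    · exact Or.inl ⟨hx, hd⟩
    right
    have hkX : k < X := idx_lt v T k (hk1.trans hy2)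
    have hex : ∃ i < K, 8 * C * Real.log (P (k + i)) < P (k + i + 1) - P (k + i) := by
      by_contra hcon
      push Not at hcon
      exact hkB (Finset.mem_filter.2 ⟨Finset.mem_range.2 hkX, hcon⟩)
    obtain ⟨z, hz1, hz2⟩ := h2 (T * x) hy1 hy2 k hk1 hk2 hfar hex
    have hsT : s * T = s₀ * Real.log T := by
      rw [hs]
      field_simp
    have hρT : ρ n * T = L' * Real.log T := by
      rw [hρn]
      field_simp
    have hsub : Ioo (z / T - s) (z / T + s) ⊆ closedBall x (ρ n) := by
      intro w hw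
      rw [mem_closedBall, Real.dist_eq]
      have h7 := scale2 z T s _ w hT0 hsT hw
      have h8 : |T * w - T * x| ≤ L' * Real.log T := by
        have : T * w - T * x = (T * w - z) + (z - T * x) := by ring
        rw [this]
        refine (abs_add_le _ _).trans ?_
        rw [hL']
        linarith
      rw [← mul_sub, abs_mul, abs_of_pos hT0, ← hρT, mul_comm (ρ n)] at h8
      exact le_of_mul_le_mul_left h8 hT0
    have hfarw : Ioo (z / T - s) (z / T + s) ⊆
        {x | Bet (a * Real.log T) (b * Real.log T) (T * x)} := by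
      intro w hw
      exact hz2 _ (scale2 z T s _ w hT0 hsT hw)
    have hsρ : s ≤ ρ n := by
      have h7 : s * T ≤ ρ n * T := by
        rw [hsT, hρT, hL', add_mul]
        have : 0 ≤ L * Real.log T := by positivity
        linarith
      exact le_of_mul_le_mul_right h7 hT0
    have hk2' : κ * (2 * ρ n) = s := by
      rw [hκ, hρn, hs]
      field_simp
    have hF2 : ENNReal.ofReal (2 * ρ n - s) ≤ volume (F1 ∩ closedBall x (ρ n)) := by
      have h7 := not_lt.1 hd
      have h8 : (1 - κ) * (2 * ρ n) = 2 * ρ n - s := by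
        rw [← hk2']
        ring
      rw [h8] at h7
      exact h7
    have h7 := local_meas F1 x (ρ n) (z / T) s hs0.le hsub hsρ hF2
    refine h7.trans (measure_mono ?_)
    intro w hw
    exact ⟨⟨hw.1, hfarw hw.2⟩, hsub hw.2⟩
  have hGm := markov_ball A hAm (ρ n) s
  have hAfin : volume A ≠ ⊤ := ne_top_of_le_ne_top hfin (measure_mono inter_subset_left)
  set α : ℝ := (volume A).toReal with hα
  have haA : volume A = ENNReal.ofReal α := (ENNReal.ofReal_toReal hAfin).symm
  have ha0 : 0 ≤ α := ENNReal.toReal_nonneg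
  have hGle : volume G ≤ ENNReal.ofReal (α / κ) := by
    rw [haA, ← ENNReal.ofReal_mul (by rw [hρn]; positivity)] at hGm
    have h7 : volume G ≤ ENNReal.ofReal (2 * ρ n * α) / ENNReal.ofReal s := by
      rw [ENNReal.le_div_iff_mul_le (Or.inl (by
        rw [Ne, ENNReal.ofReal_eq_zero, not_le]
        positivity)) (Or.inl ENNReal.ofReal_ne_top), mul_comm]
      exact hGm
    rw [← ENNReal.ofReal_div_of_pos (by positivity)] at h7
    refine h7.trans (ENNReal.ofReal_le_ofReal (le_of_eq ?_))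
    rw [hρn, hκ, hs]
    field_simp
  have htot : ENNReal.ofReal μ ≤ ENNReal.ofReal (μ / 8 + (μ / 8 + α / κ)) := by
    refine h7.trans ((measure_mono hcov).trans ((measure_union_le _ _).trans ?_))
    rw [ENNReal.ofReal_add (by positivity) (by positivity)]
    refine add_le_add hS2m ((measure_union_le _ _).trans ?_)
    rw [ENNReal.ofReal_add (by positivity) (by positivity)]
    exact add_le_add h1 hGle
  have htot' : μ ≤ μ / 8 + (μ / 8 + α / κ) :=
    (ENNReal.ofReal_le_ofReal_iff (by positivity)).1 htot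
  have hfinal : ENNReal.ofReal (μ / 2 * κ) ≤ volume A := by
    rw [haA]
    apply ENNReal.ofReal_le_ofReal
    have h8 : μ / 2 ≤ α / κ := by linarith
    rw [le_div_iff₀ hκ0] at h8
    exact h8
  refine hfinal.trans (measure_mono ?_)
  rintro w ⟨hw1, hw2⟩
  exact ⟨hw1.1, hw2⟩

/-- from the averages to the count -/
theorem count_of_av2 (t : ℕ → ℝ) (ht : Tendsto t atTop atTop) (x a b a' b' : ℝ) (h1 : a ≤ a')
    (h2 : b' ≤ b) (δ : ℝ) (hδ : 0 < δ)
    (h : ∃ᶠ N in atTop, δ ≤
      av (fun n => {x | Bet (a' * Real.log (t n)) (b' * Real.log (t n)) (t n * x)}) N x) :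
    ∃ᶠ N : ℕ in atTop, δ / 2 * N ≤
      ({n : ℕ | n < N ∧ (∀ p : ℕ, p.Prime → a * Real.log (t n) < |t n * x - p|) ∧
        ∃ p : ℕ, p.Prime ∧ |t n * x - p| < b * Real.log (t n)}.ncard : ℝ) := by
  classical
  obtain ⟨n₀, hn₀⟩ := eventually_atTop.1 (ht.eventually_ge_atTop 1)
  have h3 : ∀ᶠ N : ℕ in atTop, (n₀ : ℝ) ≤ δ / 2 * N :=
    (tendsto_natCast_atTop_atTop.const_mul_atTop (by positivity)).eventually_ge_atTop _
  refine (h.and_eventually (h3.and (eventually_gt_atTop 0))).mono ?_
  rintro N ⟨h3, h4, h5⟩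
  have hN : (0 : ℝ) < N := by exact_mod_cast h5
  unfold av at h3
  rw [le_div_iff₀ hN] at h3
  set S : Finset ℕ := (Finset.range N).filter
    (fun n => Bet (a' * Real.log (t n)) (b' * Real.log (t n)) (t n * x)) with hS
  have h6 : ∑ n ∈ Finset.range N,
      ((fun n => {x | Bet (a' * Real.log (t n)) (b' * Real.log (t n)) (t n * x)}) n).indicator
        (fun _ => (1 : ℝ)) x = S.card := by
    rw [hS, Finset.card_filter]
    push_cast
    refine Finset.sum_congr rfl fun n _ => ?_
    by_cases hf : Bet (a' * Real.log (t n)) (b' * Real.log (t n)) (t n * x)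
    · rw [if_pos hf]
      exact indicator_of_mem
        (s := {x | Bet (a' * Real.log (t n)) (b' * Real.log (t n)) (t n * x)}) hf _
    · rw [if_neg hf]
      exact indicator_of_notMem
        (s := {x | Bet (a' * Real.log (t n)) (b' * Real.log (t n)) (t n * x)}) hf _
  rw [h6] at h3
  have h7 : S ⊆ Finset.range n₀ ∪ S.filter (fun n => n₀ ≤ n) := by
    intro n hn
    rcases Nat.lt_or_ge n n₀ with h | h
    · exact Finset.mem_union_left _ (Finset.mem_range.2 h)
    · exact Finset.mem_union_right _ (Finset.mem_filter.2 ⟨hn, h⟩)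
  have h8 : (S.card : ℝ) ≤ n₀ + (S.filter (fun n => n₀ ≤ n)).card := by
    have := (Finset.card_le_card h7).trans (Finset.card_union_le _ _)
    rw [Finset.card_range] at this
    exact_mod_cast this
  have h9 : ((S.filter (fun n => n₀ ≤ n)).card : ℝ) ≤
      ({n : ℕ | n < N ∧ (∀ p : ℕ, p.Prime → a * Real.log (t n) < |t n * x - p|) ∧
        ∃ p : ℕ, p.Prime ∧ |t n * x - p| < b * Real.log (t n)}.ncard : ℝ) := by
    rw [← Set.ncard_coe_finset]
    have hfinset : ({n : ℕ | n < N ∧
        (∀ p : ℕ, p.Prime → a * Real.log (t n) < |t n * x - p|) ∧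
        ∃ p : ℕ, p.Prime ∧ |t n * x - p| < b * Real.log (t n)} : Set ℕ).Finite :=
      (Set.finite_lt_nat N).subset fun n hn => hn.1
    have : (↑(S.filter (fun n => n₀ ≤ n)) : Set ℕ) ⊆
        {n : ℕ | n < N ∧ (∀ p : ℕ, p.Prime → a * Real.log (t n) < |t n * x - p|) ∧
        ∃ p : ℕ, p.Prime ∧ |t n * x - p| < b * Real.log (t n)} := by
      intro n hn
      rw [Finset.mem_coe, Finset.mem_filter, hS, Finset.mem_filter, Finset.mem_range] at hn
      have h11 : 0 ≤ Real.log (t n) := Real.log_nonneg (hn₀ n hn.2)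
      obtain ⟨hfar, q, hq, hq2⟩ := hn.1.2
      refine ⟨hn.1.1, fun p hp => ?_, q, hq, ?_⟩
      · exact (mul_le_mul_of_nonneg_right h1 h11).trans_lt (hfar p hp)
      · exact hq2.trans_le (mul_le_mul_of_nonneg_right h2 h11)
    exact_mod_cast Set.ncard_le_ncard this hfinset
  linarith

/-- **main theorem** -/
theorem main2 (t : ℕ → ℝ) (ht : Tendsto t atTop atTop) :
    ∀ᵐ x : ℝ, 0 < x → ∀ a b : ℝ, 0 ≤ a → a < b → ∃ δ : ℝ, 0 < δ ∧ ∃ᶠ N : ℕ in atTop, δ * N ≤
      ({n : ℕ | n < N ∧ (∀ p : ℕ, p.Prime → a * Real.log (t n) < |t n * x - p|) ∧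
        ∃ p : ℕ, p.Prime ∧ |t n * x - p| < b * Real.log (t n)}.ncard : ℝ) := by
  have h : ∀ q : ℚ × ℚ, ∀ᵐ x : ℝ, 0 < x → (0 ≤ (q.1 : ℝ) ∧ (q.1 : ℝ) < q.2) → ¬ Tendsto
      (fun N => av (fun n => {x | Bet ((q.1 : ℝ) * Real.log (t n)) ((q.2 : ℝ) * Real.log (t n))
        (t n * x)}) N x) atTop (𝓝 0) := by
    intro q
    by_cases hq : 0 ≤ (q.1 : ℝ) ∧ (q.1 : ℝ) < q.2
    · have := upper_density _ (fun n => bet_meas ((q.1 : ℝ) * Real.log (t n))
        ((q.2 : ℝ) * Real.log (t n)) (t n)) (fun u v hu huv F hF hFs hpos =>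
        lemC blocks t ht q.1 q.2 hq.1 hq.2 F hF
          (fun y hy => mem_Ioi.2 (hu.trans_le (hFs hy).1)) hpos)
      filter_upwards [this] with x hx hx0 _
      exact hx hx0
    · exact Eventually.of_forall fun x _ h => absurd h hq
  filter_upwards [ae_all_iff.2 h] with x hx hx0 a b ha hab
  obtain ⟨a', ha1, ha2⟩ := exists_rat_btwn hab
  obtain ⟨b', hb1, hb2⟩ := exists_rat_btwn ha2
  obtain ⟨δ, hδ, hfr⟩ := freq_of_not_tendsto _ x
    (hx (a', b') hx0 ⟨by simpa using ha.trans ha1.le, by simpa using hb1⟩)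
  exact ⟨δ / 2, by positivity, count_of_av2 t ht x a b a' b' ha1.le hb2.le δ hδ hfr⟩

end Pool.Agent.H749R6.MG
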